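import Pool.Agent.Lib_helper57.YB.Poly
import Pool.Agent.Lib_helper74.KY.Blk.R3

/-!
# Bounded truth-table completeness: `table_b` and `solver_b` (MP_675993_lc)
-/

set_option autoImplicit false
set_option linter.unusedSectionVars false
set_option linter.unusedVariables false

namespace Pool.Agent.CKP

open Pool.Agent.CK

variable {O : Lang}

/-- From a bounded truth-table reduction to typed polynomial time. -/
theorem btt_data {A B : Lang}
    (h : ∃ (q : List Bool → List Bool) (V : Lang) (b : ℕ), InFP O q ∧ InP O V ∧
      ∀ x, ∃ l : List (List Bool), l.length ≤ b ∧ q x = l.flatMap CK.code ∧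
        A x = V (CK.code x ++ l.map B)) : BData O A B := by
  obtain ⟨q, V, b, hq, hV, h⟩ := h
  refine ⟨b, fun z => items (q z), fun z w => V (CK.code z ++ w), ?_, ?_, ?_, ?_⟩
  · exact PTime.items (ptime_of_inFP hq)
  · exact (ptime_of_inP hV).comp (PTime.append (PTime.code1 PTime.id.fst) PTime.id.snd)
  · intro z
    obtain ⟨l, h1, h2, _⟩ := h z
    show (items (q z)).length ≤ b
    rw [h2, items_code]
    exact h1
  · intro z
    obtain ⟨l, _, h2, h3⟩ := h z
    show A z = V (CK.code z ++ (items (q z)).map B)
    rw [h2, items_code]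
    exact h3

end Pool.Agent.CKP
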