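import Mathlib

/-!
# Combinatorics of the pruning for bounded truth-table reductions (MP_675993_lc)

`tuples k l`: the lists of length `k` over the list `l`.  `mono_struct`: for every colouring of the
`s`-tuples of a large set with `P` colours there are `2 s` different elements `a_i, a_i'` such that
all tuples which contain for every `i` either `a_i` or `a_i'` at position `i` have the same colour.
-/

set_option autoImplicit false
set_option linter.unusedSectionVars false

namespace Pool.Agent.CKP

/-- all lists of length `k` over `l` -/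
def tuples {α : Type} : ℕ → List α → List (List α)
  | 0, _ => [[]]
  | k + 1, l => l.flatMap fun a => (tuples k l).map fun t => a :: t

theorem mem_tuples {α : Type} {k : ℕ} {l : List α} {t : List α} :
    t ∈ tuples k l ↔ t.length = k ∧ ∀ a ∈ t, a ∈ l := by
  induction k generalizing t with
  | zero =>
    unfold tuples
    rw [List.mem_singleton]
    constructor
    · rintro rfl
      exact ⟨rfl, by simp⟩
    · rintro ⟨h, _⟩
      exact List.length_eq_zero_iff.mp h
  | succ k ih =>
    unfold tuples
    simp only [List.mem_flatMap, List.mem_map]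
    constructor
    · rintro ⟨a, ha, t', ht', rfl⟩
      obtain ⟨h1, h2⟩ := ih.mp ht'
      refine ⟨by rw [List.length_cons, h1], ?_⟩
      intro b hb
      rcases List.mem_cons.mp hb with rfl | hb
      · exact ha
      · exact h2 b hb
    · rintro ⟨h1, h2⟩
      cases t with
      | nil => simp at h1
      | cons a t =>
        refine ⟨a, h2 a List.mem_cons_self, t, ih.mpr ⟨?_, fun b hb => h2 b
          (List.mem_cons_of_mem _ hb)⟩, rfl⟩
        rw [List.length_cons] at h1
        omega

theorem length_tuples {α : Type} (k : ℕ) (l : List α) :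
    (tuples k l).length = l.length ^ k := by
  induction k with
  | zero => rfl
  | succ k ih =>
    unfold tuples
    rw [List.length_flatMap]
    simp only [List.length_map, ih]
    rw [List.map_const', List.sum_replicate, smul_eq_mul, pow_succ]
    ring

/-- the choice of one element from each pair -/
def sel (ab : List (ℕ × ℕ)) (p : List Bool) : List ℕ :=
  List.zipWith (fun x b => if b = true then x.1 else x.2) ab p

theorem sel_cons (x : ℕ × ℕ) (ab : List (ℕ × ℕ)) (b : Bool) (p : List Bool) :
    sel (x :: ab) (b :: p) = (if b = true then x.1 else x.2) :: sel ab p := rfl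

/-- a sufficient size -/
def NB (P : ℕ) : ℕ → ℕ
  | 0 => 0
  | s + 1 => NB P s + ((NB P s * NB P s) ^ s * P + 1)

theorem mono_struct {C : Type} [DecidableEq C] (P s : ℕ) : ∀ (L : Finset ℕ) (χ : List ℕ → C)
    (T : Finset C), T.card ≤ P → (∀ l : List ℕ, l.length = s → (∀ a ∈ l, a ∈ L) → χ l ∈ T) →
    NB P s ≤ L.card →
    ∃ ab : List (ℕ × ℕ), ab.length = s ∧ (∀ x ∈ ab, x.1 ∈ L ∧ x.2 ∈ L) ∧
      (ab.map Prod.fst ++ ab.map Prod.snd).Nodup ∧
      ∃ c : C, ∀ p : List Bool, p.length = s → χ (sel ab p) = c := by
  induction s with
  | zero =>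
    intro L χ T _ _ _
    refine ⟨[], rfl, by simp, by simp, χ [], ?_⟩
    intro p hp
    rw [List.length_eq_zero_iff] at hp
    rw [hp]
    rfl
  | succ s ih =>
    intro L χ T hT hχ hL
    have hNB : NB P (s + 1) = NB P s + ((NB P s * NB P s) ^ s * P + 1) := rfl
    obtain ⟨V, hVL, hVc⟩ := Finset.exists_subset_card_eq (s := L) (n := NB P s) (by omega)
    have hW : (NB P s * NB P s) ^ s * P < (L \ V).card := by
      rw [Finset.card_sdiff_of_subset hVL, hVc]
      omega
    have hex : ∀ v ∈ L \ V, ∃ ab : List (ℕ × ℕ), ab.length = s ∧ (∀ x ∈ ab, x.1 ∈ V ∧ x.2 ∈ V) ∧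
        (ab.map Prod.fst ++ ab.map Prod.snd).Nodup ∧
        ∃ c : C, ∀ p : List Bool, p.length = s → χ (v :: sel ab p) = c := by
      intro v hv
      obtain ⟨hv1, _⟩ := Finset.mem_sdiff.mp hv
      refine ih V (fun l => χ (v :: l)) T hT ?_ hVc.ge
      intro l hl hlV
      refine hχ _ (by rw [List.length_cons, hl]) ?_
      intro a ha
      rcases List.mem_cons.mp ha with rfl | ha
      · exact hv1
      · exact hVL (hlV a ha)
    have : Nonempty C := ⟨χ []⟩
    choose! F hF1 hF2 hF3 G hG using hex
    -- the targets of the pigeonhole principle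
    set VV : List (ℕ × ℕ) := (V ×ˢ V).toList with hVV
    set D : Finset (List (ℕ × ℕ) × C) := (tuples s VV).toFinset ×ˢ T with hD
    have hDc : D.card ≤ (NB P s * NB P s) ^ s * P := by
      rw [hD, Finset.card_product]
      refine Nat.mul_le_mul ?_ hT
      refine (List.toFinset_card_le _).trans ?_
      rw [length_tuples, hVV, Finset.length_toList, Finset.card_product, hVc]
    have hmaps : ∀ v ∈ L \ V, (F v, G v) ∈ D := by
      intro v hv
      rw [hD, Finset.mem_product]
      refine ⟨?_, ?_⟩
      · rw [List.mem_toFinset, mem_tuples]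
        refine ⟨hF1 v hv, fun x hx => ?_⟩
        rw [hVV, Finset.mem_toList, Finset.mem_product]
        exact hF2 v hv x hx
      · show G v ∈ T
        rw [← hG v hv (List.replicate s true) (by simp)]
        refine hχ _ ?_ ?_
        · rw [List.length_cons]
          unfold sel
          rw [List.length_zipWith, hF1 v hv, List.length_replicate, Nat.min_self]
        · intro a ha
          rcases List.mem_cons.mp ha with rfl | ha
          · exact (Finset.mem_sdiff.mp hv).1
          · unfold sel at ha
            obtain ⟨i, hi, rfl⟩ := List.getElem_of_mem ha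
            rw [List.getElem_zipWith]
            rw [List.length_zipWith] at hi
            have h1 := hF2 v hv _ (List.getElem_mem (l := F v) (n := i) (by omega))
            split
            · exact hVL h1.1
            · exact hVL h1.2
    obtain ⟨v, hv, v', hv', hne, heq⟩ := Finset.exists_ne_map_eq_of_card_lt_of_maps_to
      (f := fun v => (F v, G v)) (lt_of_le_of_lt hDc hW) hmaps
    have e1 : F v = F v' := congrArg Prod.fst heq
    have e2 : G v = G v' := congrArg Prod.snd heq
    have m1 := Finset.mem_sdiff.mp hv
    have m2 := Finset.mem_sdiff.mp hv'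
    refine ⟨(v, v') :: F v, by rw [List.length_cons, hF1 v hv], ?_, ?_, G v, ?_⟩
    · intro x hx
      rcases List.mem_cons.mp hx with rfl | hx
      · exact ⟨m1.1, m2.1⟩
      · have := hF2 v hv x hx
        exact ⟨hVL this.1, hVL this.2⟩
    · have h3 := hF3 v hv
      have q1 : ∀ a ∈ (F v).map Prod.fst ++ (F v).map Prod.snd, a ∈ V := by
        intro a ha
        rcases List.mem_append.mp ha with h | h
        · obtain ⟨x, hx, rfl⟩ := List.mem_map.mp h
          exact (hF2 v hv x hx).1
        · obtain ⟨x, hx, rfl⟩ := List.mem_map.mp h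
          exact (hF2 v hv x hx).2
      have q2 : v ∉ (F v).map Prod.fst ++ (F v).map Prod.snd := fun h => m1.2 (q1 v h)
      have q3 : v' ∉ (F v).map Prod.fst ++ (F v).map Prod.snd := fun h => m2.2 (q1 v' h)
      rw [List.map_cons, List.map_cons, List.cons_append, List.nodup_cons]
      have hperm : ((F v).map Prod.fst ++ v' :: (F v).map Prod.snd).Perm
          (v' :: ((F v).map Prod.fst ++ (F v).map Prod.snd)) := List.perm_middle
      refine ⟨?_, hperm.nodup_iff.mpr (List.nodup_cons.mpr ⟨q3, h3⟩)⟩
      intro h
      rcases List.mem_cons.mp (hperm.mem_iff.mp h) with h | h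
      · exact hne h
      · exact q2 h
    · intro p hp
      cases p with
      | nil => simp at hp
      | cons b p =>
        rw [List.length_cons] at hp
        rw [sel_cons]
        cases b
        · simp only [Bool.false_eq_true, if_false]
          rw [e1, hG v' hv' p (by omega), e2]
        · simp only [if_true]
          exact hG v hv p (by omega)

/-- bit vectors -/
def vecT (k i : ℕ) : List Bool := (List.range k).map fun j => i.testBit j

theorem vecT_inj {k i i' : ℕ} (hi : i < 2 ^ k) (hi' : i' < 2 ^ k) (h : vecT k i = vecT k i') :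
    i = i' := by
  apply Nat.eq_of_testBit_eq
  intro j
  by_cases hj : j < k
  · unfold vecT at h
    have := List.map_inj_left.mp h j (List.mem_range.mpr hj)
    exact this
  · rw [Nat.testBit_lt_two_pow (lt_of_lt_of_le hi (Nat.pow_le_pow_right (by norm_num) (by omega))),
      Nat.testBit_lt_two_pow (lt_of_lt_of_le hi' (Nat.pow_le_pow_right (by norm_num) (by omega)))]

/-- some vector is missing in a short list -/
theorem exists_vec {k : ℕ} (S : List (List Bool)) (h : S.length < 2 ^ k) :
    ∃ i < 2 ^ k, vecT k i ∉ S := by
  by_contra hcon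
  push Not at hcon
  have h1 : (Finset.range (2 ^ k)).card ≤ S.toFinset.card := by
    refine Finset.card_le_card_of_injOn (vecT k) ?_ ?_
    · intro i hi
      have := hcon i (Finset.mem_range.mp hi)
      simpa using this
    · intro i hi i' hi' he
      exact vecT_inj (Finset.mem_range.mp hi) (Finset.mem_range.mp hi') he
  rw [Finset.card_range] at h1
  have h2 := List.toFinset_card_le S
  omega

/-- enough coordinates -/
theorem exists_dim (κ : ℕ) : ∃ k : ℕ, (k + 1) ^ κ < 2 ^ k := by
  have h1 : Filter.Tendsto (fun n : ℕ => (n : ℝ) ^ κ / (2 : ℝ) ^ n) Filter.atTop (nhds 0) :=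
    tendsto_pow_const_div_const_pow_of_one_lt κ (by norm_num)
  have h2 := h1.eventually (gt_mem_nhds (show (0 : ℝ) < 1 / 2 by norm_num))
  obtain ⟨N, hN⟩ := Filter.eventually_atTop.mp h2
  refine ⟨N, ?_⟩
  have h3 := hN (N + 1) (by omega)
  rw [div_lt_iff₀ (by positivity), pow_succ] at h3
  have h4 : ((N + 1 : ℕ) : ℝ) ^ κ < 2 ^ N := by linarith
  exact_mod_cast h4

/-- the elements of the transversals: `a_i` is in the `j`-th one if and only if the bit `j` of `i`
is `1` -/
theorem mem_sel {ab : List (ℕ × ℕ)} (hnd : (ab.map Prod.fst ++ ab.map Prod.snd).Nodup)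
    {p : List Bool} (hp : p.length = ab.length) {i : ℕ} (hi : i < ab.length) :
    (ab[i]).1 ∈ sel ab p ↔ p[i]'(by omega) = true := by
  rw [List.nodup_append] at hnd
  obtain ⟨n1, _, n3⟩ := hnd
  constructor
  · intro h
    unfold sel at h
    obtain ⟨i', hi', he⟩ := List.getElem_of_mem h
    rw [List.getElem_zipWith] at he
    rw [List.length_zipWith] at hi'
    have hi1 : i' < ab.length := by omega
    by_cases hb : p[i']'(by omega) = true
    · rw [if_pos hb] at he
      have : i' = i := by
        have h1 : (ab.map Prod.fst)[i']'(by rw [List.length_map]; omega) =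
            (ab.map Prod.fst)[i]'(by rw [List.length_map]; omega) := by
          rw [List.getElem_map, List.getElem_map]
          exact he
        exact (n1.getElem_inj_iff).mp h1
      subst this
      exact hb
    · rw [if_neg hb] at he
      exfalso
      refine n3 _ (List.mem_map_of_mem (List.getElem_mem hi)) _
        (List.mem_map_of_mem (List.getElem_mem hi1)) he.symm
  · intro h
    unfold sel
    rw [List.mem_iff_getElem]
    refine ⟨i, by rw [List.length_zipWith]; omega, ?_⟩
    rw [List.getElem_zipWith, if_pos h]

theorem mem_of_mem_sel {ab : List (ℕ × ℕ)} {p : List Bool} {L : List ℕ}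
    (hL : ∀ x ∈ ab, x.1 ∈ L ∧ x.2 ∈ L) {a : ℕ} (ha : a ∈ sel ab p) : a ∈ L := by
  unfold sel at ha
  obtain ⟨i, hi, rfl⟩ := List.getElem_of_mem ha
  rw [List.getElem_zipWith]
  rw [List.length_zipWith] at hi
  have h1 := hL _ (List.getElem_mem (l := ab) (n := i) (by omega))
  split
  · exact h1.1
  · exact h1.2

theorem length_sel {ab : List (ℕ × ℕ)} {p : List Bool} (hp : p.length = ab.length) :
    (sel ab p).length = ab.length := by
  unfold sel
  rw [List.length_zipWith, hp, Nat.min_self]

end Pool.Agent.CKP
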