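import Pool.Agent.Lib_helper57.YB.Prune

/-!
# The search for bounded truth-table reductions: correctness (MP_675993_lc)
-/

set_option autoImplicit false
set_option linter.unusedSectionVars false
set_option linter.unusedVariables false

namespace Pool.Agent.CKP

open Pool.Agent.CK

variable {O : Lang} {π : Type} {W : ℕ → ℕ → Bool}
  {phi : π → List (Bool × ℕ) → List Bool → Bool} {ℓ : ℕ → ℕ} {r d κ k s : ℕ}
  {Q : List Bool → List (List Bool)} {V : List Bool → List Bool → Bool}

open Classical in
/-- there is a witness for `m` below `t` -/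
noncomputable def tmW (W : ℕ → ℕ → Bool) (m t : ℕ) : Bool := decide (∃ v < t, W m v = true)

theorem tmW_mono (m t t' : ℕ) (h : t ≤ t') (h1 : tmW W m t = true) : tmW W m t' = true := by
  unfold tmW at h1 ⊢
  rw [decide_eq_true_eq] at h1 ⊢
  obtain ⟨v, hv, hW⟩ := h1
  exact ⟨v, by omega, hW⟩

theorem evB_spec {T : List (Bool × ℕ)} {N : π} {n : List Unit} {U : ℕ} {q : List Bool}
    (hT : ∀ j < n.length, LeastSpec W j (ent T j))
    (hphi : typ q = true → valid W r d q = true → (wss q).length ≤ n.length →
      phi N T (xx q) = UK O (xx q))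
    (hex : ∃ v < U, W n.length v = true) (hrev : revB W r d n U q = false) :
    CL O W r d q = ansB (tmW W) (evB W phi r d T N n q) := by
  rw [Bool.eq_iff_iff, CL_iff]
  have a1 : ∀ tm : ℕ → ℕ → Bool, ansB tm (1, 0) = true := fun tm => rfl
  have a0 : ∀ tm : ℕ → ℕ → Bool, ansB tm (0, 0) = false := fun tm => rfl
  by_cases ht : typ q = true
  · by_cases hv : valid W r d q = true
    · by_cases hl : n.length < (wss q).length
      · have he : evB W phi r d T N n q = (1, 0) := by
          unfold evB
          rw [if_pos ht, if_pos hv, if_pos (by simpa using hl)]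
        rw [he, a1]
        simp only [iff_true]
        obtain ⟨v, hvU, hWv⟩ := hex
        refine Or.inr ⟨ht, hv, Or.inr ⟨v, guardW_iff.mpr ⟨n.length, hl, ?_, hWv⟩⟩⟩
        unfold revB at hrev
        rw [ht, hv] at hrev
        simp only [Bool.true_and, decide_eq_true hl] at hrev
        by_cases h0 : (ent (wss q) n.length).1 = true
        · right
          rw [h0] at hrev
          simp only [Bool.true_and, decide_eq_false_iff_not] at hrev
          omega
        · left
          simpa using h0
      · have hl' : (wss q).length ≤ n.length := by omega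
        have hp := hphi ht hv hl'
        have hg : guardT (wss q) T = true ↔ ∃ v, guardW W (wss q) v = true := by
          rw [guardT_iff]
          constructor
          · rintro ⟨j, hj, h1, h2⟩
            exact ⟨_, guardW_iff.mpr ⟨j, hj, h2, ((hT j (by omega)).2 h1).1⟩⟩
          · rintro ⟨v, hg⟩
            obtain ⟨j, hj, h1, h2⟩ := guardW_iff.mp hg
            have h3 := (hT j (by omega)).1.mpr ⟨v, h2⟩
            refine ⟨j, hj, h3, h1.imp_right fun h4 => ?_⟩
            have h5 := ((hT j (by omega)).2 h3).2
            by_contra h6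
            exact h5 v (by omega) h2
        have hiff : (phi N T (xx q) || guardT (wss q) T) = true ↔ CLP O W r d q := by
          rw [Bool.or_eq_true, hp, hg]
          constructor
          · exact fun h => Or.inr ⟨ht, hv, h⟩
          · rintro (⟨h1, _⟩ | ⟨_, _, h⟩)
            · rw [ht] at h1; simp at h1
            · exact h
        by_cases hc : (phi N T (xx q) || guardT (wss q) T) = true
        · have he : evB W phi r d T N n q = (1, 0) := by
            unfold evB
            rw [if_pos ht, if_pos hv, if_neg (by simpa using hl), if_pos hc]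
          rw [he, a1]
          simp only [iff_true]
          exact hiff.mp hc
        · have he : evB W phi r d T N n q = (0, 0) := by
            unfold evB
            rw [if_pos ht, if_pos hv, if_neg (by simpa using hl), if_neg hc]
          rw [he, a0]
          simp only [Bool.false_eq_true, iff_false]
          exact fun h => hc (hiff.mpr h)
    · have he : evB W phi r d T N n q = (0, 0) := by
        unfold evB
        rw [if_pos ht, if_neg hv]
      rw [he, a0]
      simp only [Bool.false_eq_true, iff_false]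
      rintro (⟨h1, _⟩ | ⟨_, h1, _⟩)
      · rw [ht] at h1; simp at h1
      · exact hv h1
  · have he : evB W phi r d T N n q = ((colr q).length + 2, thr q) := by
      unfold evB
      rw [if_neg ht]
    have hans : ansB (tmW W) ((colr q).length + 2, thr q) = tmW W (colr q).length (thr q) := by
      unfold ansB
      rw [if_neg (by omega), if_neg (by omega)]
      show tmW W ((colr q).length + 2 - 2) (thr q) = _
      rw [Nat.add_sub_cancel]
    rw [he, hans]
    unfold tmW
    rw [decide_eq_true_eq]
    constructor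
    · rintro (⟨_, h1⟩ | ⟨h1, _⟩)
      · exact h1
      · exact absurd h1 ht
    · intro h1
      exact Or.inl ⟨by simpa using ht, h1⟩

/-- the hypotheses for one instance of the search -/
structure Ctx (O : Lang) (W : ℕ → ℕ → Bool) (phi : π → List (Bool × ℕ) → List Bool → Bool)
    (r d κ s : ℕ) (Q : List Bool → List (List Bool)) (V : List Bool → List Bool → Bool)
    (T : List (Bool × ℕ)) (N : π) (n : List Unit) (U : ℕ) : Prop where
  hQV : ∀ z, ZLs W z = V z ((Q z).map (CL O W r d))
  hκ : ∀ z, (Q z).length ≤ κ
  hT : ∀ j < n.length, LeastSpec W j (ent T j)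
  hphi : ∀ q, typ q = true → valid W r d q = true → (wss q).length ≤ n.length →
      phi N T (xx q) = UK O (xx q)
  hex : ∃ v < U, W n.length v = true

theorem evalB_vec {T : List (Bool × ℕ)} {N : π} {n i : List Unit} {U : ℕ}
    (hc : Ctx O W phi r d κ s Q V T N n U) {A : List (List ℕ)}
    (hrev : ∀ B ∈ A, ∀ q ∈ Q (zl n i B U), revB W r d n U q = false) :
    (evalB W phi r d Q T N n i U A).map (fun x => V x.1 (x.2.map (ansB (tmW W)))) =
      A.map fun B => ZLs W (zl n i B U) := by
  unfold evalB
  rw [List.map_map]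
  refine List.map_congr_left fun B hB => ?_
  simp only [Function.comp_apply]
  rw [hc.hQV, List.map_map]
  congr 1
  refine List.map_congr_left fun q hq => ?_
  simp only [Function.comp_apply]
  exact (evB_spec hc.hT (hc.hphi q) hc.hex (hrev B hB q hq)).symm

theorem mem_candB {T : List (Bool × ℕ)} {N : π} {n i : List Unit} {U : ℕ} {L : List ℕ} {a : ℕ} :
    a ∈ candB W phi r d κ k s Q V T N n i U L ↔ a ∈ L ∧ ∃ A ∈ tuples k (tuples s L),
      exclB κ k V (evalB W phi r d Q T N n i U A)
        (A.map fun B => B.any fun b => decide (b = a)) = true := by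
  unfold candB
  rw [List.mem_flatMap]
  constructor
  · rintro ⟨A, hA, ha⟩
    obtain ⟨h1, h2⟩ := List.mem_filter.mp ha
    exact ⟨h1, A, hA, h2⟩
  · rintro ⟨h1, A, hA, h2⟩
    exact ⟨A, hA, List.mem_filter.mpr ⟨h1, h2⟩⟩

theorem stepB_sublist {T : List (Bool × ℕ)} {N : π} {n i : List Unit} {U : ℕ} {L : List ℕ} :
    (stepB W phi r d κ k s Q V T N n i U L).Sublist L := by
  unfold stepB
  cases h : candB W phi r d κ k s Q V T N n i U L with
  | nil => rw [lcase_nil]
  | cons a t =>
    rw [lcase_cons]
    exact List.filter_sublist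

theorem stepB_sound {T : List (Bool × ℕ)} {N : π} {n i : List Unit} {U : ℕ} {L : List ℕ}
    (hc : Ctx O W phi r d κ s Q V T N n U)
    (hrev : ∀ B : List ℕ, B.length = s → (∀ b ∈ B, b ∈ L) → ∀ q ∈ Q (zl n i B U),
      revB W r d n U q = false)
    (h : ∃ a ∈ L, SN W n.length i.length a U) :
    ∃ a ∈ stepB W phi r d κ k s Q V T N n i U L, SN W n.length i.length a U := by
  unfold stepB
  cases hcand : candB W phi r d κ k s Q V T N n i U L with
  | nil => rw [lcase_nil]; exact h
  | cons a t =>
    rw [lcase_cons]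
    obtain ⟨haL, A, hA, hex⟩ := mem_candB.mp (show a ∈ candB W phi r d κ k s Q V T N n i U L by
      rw [hcand]; exact List.mem_cons_self)
    by_contra hcon
    push Not at hcon
    have honly : ∀ b ∈ L, b ≠ a → ¬ SN W n.length i.length b U := by
      intro b hb hne
      exact hcon b (List.mem_filter.mpr ⟨hb, by simpa using hne⟩)
    obtain ⟨a', ha', hSN⟩ := h
    have haa : a' = a := by
      by_contra hne
      exact honly a' ha' hne hSN
    rw [haa] at hSN
    obtain ⟨hA1, hA2⟩ := mem_tuples.mp hA
    have hAB : ∀ B ∈ A, B.length = s ∧ ∀ b ∈ B, b ∈ L := fun B hB => mem_tuples.mp (hA2 B hB)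
    refine exclB_sound (tm := tmW W) ?_ hex ?_ (fun m t t' => tmW_mono m t t') ?_
    · unfold evalB
      rw [List.length_map, hA1]
    · intro x hx
      unfold evalB at hx
      obtain ⟨B, hB, rfl⟩ := List.mem_map.mp hx
      simp only [List.length_map]
      exact hc.hκ _
    · rw [evalB_vec hc fun B hB => hrev B (hAB B hB).1 (hAB B hB).2]
      refine List.map_congr_left fun B hB => ?_
      rw [Bool.eq_iff_iff, ZLs_zl, List.any_eq_true]
      simp only [decide_eq_true_eq, exists_eq_right]
      constructor
      · rintro ⟨b, hb, hSb⟩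
        by_cases hba : b = a
        · rw [← hba]; exact hb
        · exact absurd hSb (honly b ((hAB B hB).2 b hb) hba)
      · intro ha
        exact ⟨a, ha, hSN⟩

theorem foldB_sublist {T : List (Bool × ℕ)} {N : π} {n i : List Unit} {U : ℕ} :
    ∀ (l L : List ℕ), (l.foldl (fun L' _ => stepB W phi r d κ k s Q V T N n i U L') L).Sublist
      L := by
  intro l
  induction l with
  | nil => intro L; exact List.Sublist.refl _
  | cons a t ih =>
    intro L
    rw [List.foldl_cons]
    exact (ih _).trans stepB_sublist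

theorem foldB_sound {T : List (Bool × ℕ)} {N : π} {n i : List Unit} {U : ℕ} {L0 : List ℕ}
    (hc : Ctx O W phi r d κ s Q V T N n U)
    (hrev : ∀ B : List ℕ, B.length = s → (∀ b ∈ B, b ∈ L0) → ∀ q ∈ Q (zl n i B U),
      revB W r d n U q = false) :
    ∀ (l L : List ℕ), (∀ a ∈ L, a ∈ L0) → (∃ a ∈ L, SN W n.length i.length a U) →
      ∃ a ∈ l.foldl (fun L' _ => stepB W phi r d κ k s Q V T N n i U L') L,
        SN W n.length i.length a U := by
  intro l
  induction l with
  | nil => intro L _ h; exact h
  | cons a t ih =>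
    intro L hL h
    rw [List.foldl_cons]
    refine ih _ (fun b hb => hL b (stepB_sublist.subset hb)) ?_
    exact stepB_sound hc (fun B h1 h2 => hrev B h1 fun b hb => hL b (h2 b hb)) h

/-! ### sizes -/

/-- the colours are below `M` -/
def ColBs (ℓ : ℕ → ℕ) (s : ℕ) (Q : List Bool → List (List Bool)) (M : ℕ → ℕ) : Prop :=
  ∀ (n i : List Unit) (A : List ℕ) (U : ℕ), i.length ≤ ℓ n.length → A.length = s →
    (∀ a ∈ A, a < 2 ^ ℓ n.length) → U ≤ 2 ^ ℓ n.length → ∀ q ∈ Q (zl n i A U),
      (colr q).length < M n.length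

/-- bound for the length of the lists of nodes -/
def NL (κ k : ℕ) (M : ℕ → ℕ) (n : ℕ) : ℕ := NB ((κ + 1) * (M n + 2) ^ κ) (2 ^ k)

theorem evB_code {T : List (Bool × ℕ)} {N : π} {n : List Unit} {q : List Bool} {m : ℕ}
    (h : (colr q).length < m) : (evB W phi r d T N n q).1 < m + 2 := by
  unfold evB
  split
  · split
    · split
      · show 1 < m + 2; omega
      · split
        · show 1 < m + 2; omega
        · show 0 < m + 2; omega
    · show 0 < m + 2; omega
  · show (colr q).length + 2 < m + 2
    omega

theorem stepB_len {M : ℕ → ℕ} (hM : ColBs ℓ (2 ^ k) Q M) (hk : (k + 1) ^ κ < 2 ^ k)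
    (hκ : ∀ z, (Q z).length ≤ κ) {T : List (Bool × ℕ)} {N : π} {n i : List Unit} {U : ℕ}
    {L : List ℕ} (hi : i.length ≤ ℓ n.length) (hL : ∀ a ∈ L, a < 2 ^ ℓ n.length)
    (hU : U ≤ 2 ^ ℓ n.length) (hnd : L.Nodup) (hlen : NL κ k M n.length ≤ L.length) :
    (stepB W phi r d κ k (2 ^ k) Q V T N n i U L).length + 1 ≤ L.length := by
  obtain ⟨A, hA, a, ha, hex⟩ := exists_excl (κ := κ) (k := k) (M := M n.length) hk hnd hlen V
    (fun B => (zl n i B U, (Q (zl n i B U)).map fun q => evB W phi r d T N n q)) (by
      intro B hB hBL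
      refine ⟨by simp only [List.length_map]; exact hκ _, ?_⟩
      intro c hc
      obtain ⟨q, hq, rfl⟩ := List.mem_map.mp hc
      exact evB_code (hM n i B U hi hB (fun b hb => hL b (hBL b hb)) hU q hq))
  have hmem : a ∈ candB W phi r d κ k (2 ^ k) Q V T N n i U L := mem_candB.mpr ⟨ha, A, hA, hex⟩
  unfold stepB
  cases hcand : candB W phi r d κ k (2 ^ k) Q V T N n i U L with
  | nil => rw [hcand] at hmem; simp at hmem
  | cons b t =>
    rw [lcase_cons]
    have hb : b ∈ L := (mem_candB.mp (show b ∈ candB W phi r d κ k (2 ^ k) Q V T N n i U L by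
      rw [hcand]; exact List.mem_cons_self)).1
    have : (L.filter fun b' => !(decide (b' = b))).length < L.length :=
      List.length_filter_lt_length_iff_exists.mpr ⟨b, hb, by simp⟩
    omega

theorem foldB_len {M : ℕ → ℕ} (hM : ColBs ℓ (2 ^ k) Q M) (hk : (k + 1) ^ κ < 2 ^ k)
    (hκ : ∀ z, (Q z).length ≤ κ) {T : List (Bool × ℕ)} {N : π} {n i : List Unit} {U : ℕ}
    (hi : i.length ≤ ℓ n.length) (hU : U ≤ 2 ^ ℓ n.length) :
    ∀ (l L : List ℕ), (∀ a ∈ L, a < 2 ^ ℓ n.length) → L.Nodup →
      (l.foldl (fun L' _ => stepB W phi r d κ k (2 ^ k) Q V T N n i U L') L).length + l.length ≤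
        L.length ∨
      (l.foldl (fun L' _ => stepB W phi r d κ k (2 ^ k) Q V T N n i U L') L).length ≤
        NL κ k M n.length := by
  intro l
  induction l with
  | nil => intro L _ _; left; simp
  | cons a t ih =>
    intro L hL hnd
    rw [List.foldl_cons, List.length_cons]
    have hsub : (stepB W phi r d κ k (2 ^ k) Q V T N n i U L).Sublist L := stepB_sublist
    by_cases hlen : NL κ k M n.length ≤ L.length
    · have h1 := stepB_len (W := W) (phi := phi) (r := r) (d := d) (V := V) (T := T) (N := N)
        hM hk hκ hi hL hU hnd hlen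
      rcases ih _ (fun b hb => hL b (hsub.subset hb)) (hnd.sublist hsub) with h2 | h2
      · left; omega
      · right; exact h2
    · right
      have h1 := (foldB_sublist (W := W) (phi := phi) (r := r) (d := d) (κ := κ) (k := k)
        (s := 2 ^ k) (Q := Q) (V := V) (T := T) (N := N) (n := n) (i := i) (U := U) t
        (stepB W phi r d κ k (2 ^ k) Q V T N n i U L)).length_le
      have h2 := hsub.length_le
      omega

/-- the invariant on the sizes of the nodes -/
def SInvB (L Mn i : ℕ) (l : List ℕ) : Prop :=
  (∀ a ∈ l, a < 2 ^ (L - i)) ∧ l.length ≤ Mn + 1 ∧ l.Nodup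

theorem children_nodup {L : List ℕ} (h : L.Nodup) : (children L).Nodup := by
  induction L with
  | nil => simp [children]
  | cons a t ih =>
    rw [List.nodup_cons] at h
    have h1 : children (a :: t) = Nat.bit false a :: Nat.bit true a :: children t := rfl
    rw [h1, List.nodup_cons, List.nodup_cons]
    have h2 : ∀ b : Bool, Nat.bit b a ∉ children t := by
      intro b hb
      rw [mem_children] at hb
      have : Nat.bit b a / 2 = a := by
        rw [Nat.bit_val]
        cases b
        · simp
        · simp only [Bool.toNat_true]; omega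
      rw [this] at hb
      exact h.1 hb
    refine ⟨?_, h2 true, ih h.2⟩
    intro hb
    rcases List.mem_cons.mp hb with hb | hb
    · rw [Nat.bit_val, Nat.bit_val] at hb
      simp at hb
    · exact h2 false hb

theorem mem_hitsB {n i : List Unit} {U : ℕ} {L : List ℕ} {q : List Bool} :
    q ∈ hitsB W r d s Q n i U L ↔ ∃ A : List ℕ, (A.length = s ∧ ∀ a ∈ A, a ∈ L) ∧
      q ∈ Q (zl n i A U) ∧ revB W r d n U q = true := by
  unfold hitsB
  rw [List.mem_flatMap]
  constructor
  · rintro ⟨A, hA, hq⟩
    exact ⟨A, mem_tuples.mp hA, List.mem_filter.mp hq⟩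
  · rintro ⟨A, hA, hq⟩
    exact ⟨A, mem_tuples.mpr hA, List.mem_filter.mpr hq⟩

theorem revB_spec {n : List Unit} {U : ℕ} {q : List Bool} (h : revB W r d n U q = true) :
    (ent (wss q) n.length).2 < U ∧ W n.length (ent (wss q) n.length).2 = true := by
  unfold revB at h
  simp only [Bool.and_eq_true, decide_eq_true_eq] at h
  obtain ⟨_, hv, hl, h1, h2⟩ := h
  refine ⟨h2, ?_⟩
  unfold valid at hv
  rw [Bool.and_eq_true] at hv
  exact checkW_iff.mp hv.2 n.length hl h1

theorem levelB_size (hver : Ver O W ℓ) {M : ℕ → ℕ} (hM : ColBs ℓ (2 ^ k) Q M)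
    (hk : (k + 1) ^ κ < 2 ^ k) (hκ : ∀ z, (Q z).length ≤ κ) (T : List (Bool × ℕ)) (N : π)
    (n : List Unit) (U : ℕ) (hU : U ≤ 2 ^ ℓ n.length) (st : List Unit) (l : List ℕ)
    (hs : st ≠ []) (hsl : st.length ≤ ℓ n.length)
    (h : ∀ a ∈ l, a < 2 ^ (ℓ n.length - st.length)) (hnd : l.Nodup) :
    SInvB (ℓ n.length) (NL κ k M n.length) st.tail.length
      (levelB W phi r d κ k (2 ^ k) Q V T N n U (st, l)).2 := by
  obtain ⟨u, st', rfl⟩ := List.exists_cons_of_ne_nil hs
  rw [List.length_cons] at hsl h
  have hch : ∀ b ∈ children l, b < 2 ^ (ℓ n.length - st'.length) := by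
    intro b hb
    have h1 := h _ (mem_children.mp hb)
    have h2 : ℓ n.length - st'.length = (ℓ n.length - (st'.length + 1)) + 1 := by omega
    rw [h2, pow_succ]
    omega
  have hch' : ∀ b ∈ children l, b < 2 ^ ℓ n.length := fun b hb =>
    lt_of_lt_of_le (hch b hb) (Nat.pow_le_pow_right (by norm_num) (Nat.sub_le _ _))
  unfold levelB
  simp only [List.tail_cons]
  cases hh : hitsB W r d (2 ^ k) Q n st' U (children l) with
  | nil =>
    rw [lcase_nil]
    unfold pruneB
    have hsub := foldB_sublist (W := W) (phi := phi) (r := r) (d := d) (κ := κ) (k := k)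
      (s := 2 ^ k) (Q := Q) (V := V) (T := T) (N := N) (n := n) (i := st') (U := U)
      (children l) (children l)
    refine ⟨fun a ha => hch a (hsub.subset ha), ?_, (children_nodup hnd).sublist hsub⟩
    rcases foldB_len (W := W) (phi := phi) (r := r) (d := d) (V := V) (T := T) (N := N)
      hM hk hκ (i := st') (by omega) hU (children l) (children l) hch' (children_nodup hnd) with
      h1 | h1
    · omega
    · omega
  | cons q t =>
    rw [lcase_cons]
    obtain ⟨A, _, _, hrev⟩ := mem_hitsB.mp (show q ∈ hitsB W r d (2 ^ k) Q n st' U (children l) by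
      rw [hh]; exact List.mem_cons_self)
    obtain ⟨_, hWn⟩ := revB_spec hrev
    refine ⟨?_, by simp, by simp⟩
    intro a ha
    rw [List.mem_singleton] at ha
    rw [ha, ushr_eq]
    have h1 := hver.hb _ _ hWn
    apply Nat.div_lt_of_lt_mul
    rw [← pow_add]
    rwa [Nat.add_sub_cancel' (by omega)]

theorem levelB_inv {T : List (Bool × ℕ)} {N : π} {n : List Unit} {U : ℕ}
    (hc : Ctx O W phi r d κ s Q V T N n U) (st : List Unit) (l : List ℕ) (hs : st ≠ [])
    (hinv : ∃ a ∈ l, SN W n.length st.length a U) :
    ∃ a ∈ (levelB W phi r d κ k s Q V T N n U (st, l)).2, SN W n.length st.tail.length a U := by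
  obtain ⟨u, st', rfl⟩ := List.exists_cons_of_ne_nil hs
  rw [List.length_cons] at hinv
  obtain ⟨a, ha, v, hv, hvU, hWv⟩ := hinv
  have hbc : v / 2 ^ st'.length ∈ children l := by
    rw [mem_children, Nat.div_div_eq_div_mul, ← pow_succ, hv]
    exact ha
  unfold levelB
  simp only [List.tail_cons]
  cases hh : hitsB W r d s Q n st' U (children l) with
  | nil =>
    rw [lcase_nil]
    unfold pruneB
    refine foldB_sound hc ?_ _ _ (fun a ha => ha) ⟨_, hbc, v, rfl, hvU, hWv⟩
    intro B hB hBL q hq
    by_contra hcon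
    have : q ∈ hitsB W r d s Q n st' U (children l) :=
      mem_hitsB.mpr ⟨B, ⟨hB, hBL⟩, hq, by simpa using hcon⟩
    rw [hh] at this
    simp at this
  | cons q t =>
    rw [lcase_cons]
    obtain ⟨A, _, _, hrev⟩ := mem_hitsB.mp (show q ∈ hitsB W r d s Q n st' U (children l) by
      rw [hh]; exact List.mem_cons_self)
    obtain ⟨h1, hWn⟩ := revB_spec hrev
    exact ⟨_, List.mem_singleton_self _, _, (ushr_eq _ _).symm, h1, hWn⟩

/-- the sizes during the fold of the levels -/
theorem foldLB_size (hver : Ver O W ℓ) {M : ℕ → ℕ} (hM : ColBs ℓ (2 ^ k) Q M)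
    (hk : (k + 1) ^ κ < 2 ^ k) (hκ : ∀ z, (Q z).length ≤ κ) (T : List (Bool × ℕ)) (N : π)
    (n : List Unit) (U : ℕ) (hU : U ≤ 2 ^ ℓ n.length) :
    ∀ j i : ℕ, i + j = ℓ n.length →
      ((List.replicate j ()).foldl (fun st _ => levelB W phi r d κ k (2 ^ k) Q V T N n U st)
        (List.replicate (ℓ n.length) (), [0])).1 = List.replicate i () ∧
      SInvB (ℓ n.length) (NL κ k M n.length) i
        ((List.replicate j ()).foldl (fun st _ => levelB W phi r d κ k (2 ^ k) Q V T N n U st)
          (List.replicate (ℓ n.length) (), [0])).2 := by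
  intro j
  induction j with
  | zero =>
    intro i hi
    simp only [List.replicate_zero, List.foldl_nil]
    have : i = ℓ n.length := by omega
    subst this
    refine ⟨rfl, ?_, by simp, by simp⟩
    intro a ha
    simp only [List.mem_singleton] at ha
    rw [ha]
    positivity
  | succ j ih =>
    intro i hi
    obtain ⟨h1, h2⟩ := ih (i + 1) (by omega)
    rw [List.replicate_succ', List.foldl_append]
    simp only [List.foldl_cons, List.foldl_nil]
    generalize (List.replicate j ()).foldl
      (fun st _ => levelB W phi r d κ k (2 ^ k) Q V T N n U st)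
        (List.replicate (ℓ n.length) (), [0]) = st at h1 h2
    obtain ⟨s1, s2⟩ := st
    simp only at h1 h2
    subst h1
    refine ⟨by unfold levelB; simp [List.replicate_succ], ?_⟩
    have := levelB_size (phi := phi) (r := r) (d := d) (V := V) hver hM hk hκ T N n U hU
      (List.replicate (i + 1) ()) s2 (by simp [List.replicate_succ]) (by simp; omega)
      (by simpa using h2.1) h2.2.2
    simpa using this

theorem srchB_spec (hver : Ver O W ℓ) {M : ℕ → ℕ} (hM : ColBs ℓ (2 ^ k) Q M)
    (hk : (k + 1) ^ κ < 2 ^ k) {T : List (Bool × ℕ)} {N : π}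
    {n : List Unit} {U : ℕ} (hU : U ≤ 2 ^ ℓ n.length)
    (hQV : ∀ z, ZLs W z = V z ((Q z).map (CL O W r d))) (hκ : ∀ z, (Q z).length ≤ κ)
    (hT : ∀ j < n.length, LeastSpec W j (ent T j))
    (hphi : ∀ q, typ q = true → valid W r d q = true → (wss q).length ≤ n.length →
      phi N T (xx q) = UK O (xx q)) :
    srchB W phi ℓ r d κ k (2 ^ k) Q V T N n U = true ↔ ∃ v < U, W n.length v = true := by
  unfold srchB
  rw [hit_iff]
  refine ⟨fun ⟨a, _, h1, h2⟩ => ⟨a, h1, h2⟩, fun hex => ?_⟩
  have hc : Ctx O W phi r d κ (2 ^ k) Q V T N n U := ⟨hQV, hκ, hT, hphi, hex⟩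
  have key : ∀ j i : ℕ, i + j = ℓ n.length →
      ∃ a ∈ ((List.replicate j ()).foldl
        (fun st _ => levelB W phi r d κ k (2 ^ k) Q V T N n U st)
        (List.replicate (ℓ n.length) (), [0])).2, SN W n.length i a U := by
    intro j
    induction j with
    | zero =>
      intro i hi
      obtain ⟨v, hvU, hv⟩ := hex
      refine ⟨0, by simp, v, ?_, hvU, hv⟩
      have : i = ℓ n.length := by omega
      rw [this]
      exact Nat.div_eq_of_lt (hver.hb _ _ hv)
    | succ j ih =>
      intro i hi
      obtain ⟨g1, g2⟩ := foldLB_size (phi := phi) (r := r) (d := d) (V := V) hver hM hk hκ T N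
        n U hU j (i + 1) (by omega)
      have g3 := ih (i + 1) (by omega)
      rw [List.replicate_succ', List.foldl_append]
      simp only [List.foldl_cons, List.foldl_nil]
      generalize (List.replicate j ()).foldl
        (fun st _ => levelB W phi r d κ k (2 ^ k) Q V T N n U st)
          (List.replicate (ℓ n.length) (), [0]) = st at g1 g2 g3
      obtain ⟨s1, s2⟩ := st
      simp only at g1 g2 g3
      subst g1
      have := levelB_inv (k := k) hc (List.replicate (i + 1) ()) s2
        (by simp [List.replicate_succ]) (by simpa using g3)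
      simpa using this
  obtain ⟨a, ha, v, hv, hvU, hWv⟩ := key (ℓ n.length) 0 (by simp)
  rw [pow_zero, Nat.div_one] at hv
  subst hv
  exact ⟨v, ha, hvU, hWv⟩

theorem capB_le (n : List Unit) (U : ℕ) : capB ℓ n U ≤ 2 ^ ℓ n.length := by
  unfold capB
  split
  · rename_i h
    rw [decide_eq_true_eq, ushl_eq, List.length_replicate, one_mul] at h
    exact h
  · exact Nat.zero_le _

theorem capB_eq {n : List Unit} {U : ℕ} (h : U ≤ 2 ^ ℓ n.length) : capB ℓ n U = U := by
  unfold capB
  rw [if_pos]
  rw [decide_eq_true_eq, ushl_eq, List.length_replicate, one_mul]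
  exact h

theorem leastB_spec (hver : Ver O W ℓ) {M : ℕ → ℕ} (hM : ColBs ℓ (2 ^ k) Q M)
    (hk : (k + 1) ^ κ < 2 ^ k) {T : List (Bool × ℕ)} {N : π} {n : List Unit}
    (hQV : ∀ z, ZLs W z = V z ((Q z).map (CL O W r d))) (hκ : ∀ z, (Q z).length ≤ κ)
    (hT : ∀ j < n.length, LeastSpec W j (ent T j))
    (hphi : ∀ q, typ q = true → valid W r d q = true → (wss q).length ≤ n.length →
      phi N T (xx q) = UK O (xx q)) :
    LeastSpec W n.length (leastB W phi ℓ r d κ k (2 ^ k) Q V T N n) := by
  unfold leastB
  obtain ⟨h1, h2, _⟩ := gfind_spec (P := fun v => W n.length v = true) (L := ℓ n.length)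
    (g := searchB W phi ℓ r d κ k (2 ^ k) Q V T N n)
    (fun t ht => by
      unfold searchB
      rw [capB_eq ht]
      exact srchB_spec hver hM hk ht hQV hκ hT hphi) (hver.hb n.length)
  exact ⟨h1, h2⟩

/-! ### the table -/

theorem tableB_succ (N : π) (n : ℕ) :
    tableB W phi ℓ r d κ k s Q V N (List.replicate (n + 1) ()) =
      tableB W phi ℓ r d κ k s Q V N (List.replicate n ()) ++
        [leastB W phi ℓ r d κ k s Q V (tableB W phi ℓ r d κ k s Q V N (List.replicate n ())) N
          (ulen (tableB W phi ℓ r d κ k s Q V N (List.replicate n ())))] := by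
  unfold tableB
  rw [List.replicate_succ', List.foldl_append]
  rfl

theorem tableB_length (N : π) (n : ℕ) :
    (tableB W phi ℓ r d κ k s Q V N (List.replicate n ())).length = n := by
  induction n with
  | zero => rfl
  | succ n ih => rw [tableB_succ, List.length_append, ih]; rfl

theorem tableB_ent (N : π) (n j : ℕ) (hj : j < n) :
    ent (tableB W phi ℓ r d κ k s Q V N (List.replicate n ())) j =
      leastB W phi ℓ r d κ k s Q V (tableB W phi ℓ r d κ k s Q V N (List.replicate j ())) N
        (List.replicate j ()) := by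
  induction n with
  | zero => omega
  | succ n ih =>
    rw [tableB_succ]
    rcases Nat.lt_succ_iff_lt_or_eq.mp hj with h | h
    · rw [← ih h]
      unfold ent
      rw [List.getD_append _ _ _ _ (by rw [tableB_length]; exact h)]
    · subst h
      unfold ent
      rw [List.getD_append_right _ _ _ _ (by rw [tableB_length]), tableB_length]
      simp only [Nat.sub_self, List.getD_cons_zero]
      rw [ulen_eq, tableB_length]

theorem tableB_spec (hver : Ver O W ℓ) {M : ℕ → ℕ} (hM : ColBs ℓ (2 ^ k) Q M)
    (hk : (k + 1) ^ κ < 2 ^ k) {N : π} {n0 : ℕ}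
    (hQV : ∀ z, ZLs W z = V z ((Q z).map (CL O W r d))) (hκ : ∀ z, (Q z).length ≤ κ)
    (hphi : ∀ (T : List (Bool × ℕ)) (y : List Bool), T.length < n0 →
      (∀ i < T.length, LeastSpec W i (ent T i)) → y.length ^ r ≤ T.length →
      phi N T y = UK O y) :
    ∀ n ≤ n0, ∀ i < n, LeastSpec W i
      (ent (tableB W phi ℓ r d κ k (2 ^ k) Q V N (List.replicate n ())) i) := by
  have key : ∀ n < n0, LeastSpec W n (leastB W phi ℓ r d κ k (2 ^ k) Q V
      (tableB W phi ℓ r d κ k (2 ^ k) Q V N (List.replicate n ())) N (List.replicate n ())) := by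
    intro n
    induction n using Nat.strong_induction_on with
    | _ n ih =>
      intro hn
      have hT : ∀ j < n, LeastSpec W j
          (ent (tableB W phi ℓ r d κ k (2 ^ k) Q V N (List.replicate n ())) j) := by
        intro j hj
        rw [tableB_ent N n j hj]
        exact ih j hj (by omega)
      have hl := tableB_length (W := W) (phi := phi) (ℓ := ℓ) (r := r) (d := d) (κ := κ)
        (k := k) (s := 2 ^ k) (Q := Q) (V := V) N n
      have := leastB_spec (phi := phi) (N := N) (n := List.replicate n ()) (r := r) (d := d)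
        (T := tableB W phi ℓ r d κ k (2 ^ k) Q V N (List.replicate n ())) hver hM hk hQV hκ ?_ ?_
      · simpa using this
      · intro j hj
        rw [List.length_replicate] at hj
        exact hT j hj
      · intro q _ hv hw
        refine hphi _ _ (by omega) (fun j hj => hT j (by omega)) ?_
        unfold valid at hv
        rw [Bool.and_eq_true, Bool.and_eq_true, decide_eq_true_eq] at hv
        simp only [List.length_replicate] at hw hv ⊢
        omega
  intro n hn i hi
  rw [tableB_ent N n i hi]
  exact key i (by omega)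

end Pool.Agent.CKP
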