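import Pool.Agent.Lib_helper57.YB.Correct

/-!
# The search for bounded truth-table reductions: polynomial time (MP_675993_lc)
-/

set_option autoImplicit false
set_option linter.unusedSectionVars false
set_option linter.unusedVariables false

namespace Pool.Agent.CKP

open Pool.Agent.CK

variable {O : Lang} {π : Type} [ToD π] {W : ℕ → ℕ → Bool}
  {phi : π → List (Bool × ℕ) → List Bool → Bool} {ℓ : ℕ → ℕ} {r d κ k s : ℕ}
  {Q : List Bool → List (List Bool)} {V : List Bool → List Bool → Bool}
variable {α β γ δ : Type} [ToD α] [ToD β] [ToD γ] [ToD δ]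

theorem PTime.tuples (k : ℕ) {l : γ → List α} (hl : PTime O l) :
    PTime O (fun x => CKP.tuples k (l x)) := by
  induction k with
  | zero => exact PTime.const _
  | succ k ih =>
    unfold CKP.tuples
    refine PTime.flatMap (f := fun x (a : α) => (CKP.tuples k (l x)).map fun t => a :: t) hl ?_
    exact PTime.map (f := fun (p : γ × α) (t : List α) => p.2 :: t) (ih.comp PTime.id.fst)
      (PTime.cons PTime.id.fst.snd PTime.id.snd)

theorem PTime.eqB {a b : γ → List Bool} (ha : PTime O a) (hb : PTime O b) :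
    PTime O (fun x => CKP.eqB (a x) (b x)) := by
  unfold CKP.eqB
  exact PTime.nat_eq (PTime.ofBits (PTime.append ha (PTime.const _)))
    (PTime.ofBits (PTime.append hb (PTime.const _)))

theorem PTime.gB {e : γ → List (ℕ × ℕ)} {u : γ → List α} (he : PTime O e) (hu : PTime O u) :
    PTime O (fun x => CKP.gB (e x) (u x).length) :=
  PTime.getD hu he (PTime.const (0, 0))

theorem PTime.patB {X : γ → List (List Bool × List (ℕ × ℕ))} {σ : γ → List (List Unit)}
    {e : γ → List (ℕ × ℕ)} (hX : PTime O X) (hσ : PTime O σ) (he : PTime O e) :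
    PTime O (fun x => CKP.patB (X x) (σ x) (e x)) := by
  unfold CKP.patB
  refine PTime.map (f := fun x (u : List Unit) =>
    if decide ((CKP.gB (e x) u.length).1 = 0) = true then false
    else if decide ((CKP.gB (e x) u.length).1 = 1) = true then true
    else CKP.lcase ((σ x).getD u.length []) true fun _ s =>
      decide ((CKP.gB ((X x).getD s.length ([], [])).2 u.length).2 < (CKP.gB (e x) u.length).2))
    (PTime.rangeU he.ulen) ?_
  have h1 : PTime O (fun p : γ × List Unit => CKP.gB (e p.1) p.2.length) :=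
    PTime.gB (he.comp PTime.id.fst) PTime.id.snd
  refine PTime.ite (PTime.nat_eq h1.fst (PTime.const 0)) (PTime.const false)
    (PTime.ite (PTime.nat_eq h1.fst (PTime.const 1)) (PTime.const true) ?_)
  refine PTime.lcase (l := fun p : γ × List Unit => (σ p.1).getD p.2.length [])
    (n := fun _ => true) (c := fun (p : γ × List Unit) _ (s : List Unit) =>
      decide ((CKP.gB ((X p.1).getD s.length ([], [])).2 p.2.length).2 <
        (CKP.gB (e p.1) p.2.length).2))
    (PTime.getD PTime.id.snd (hσ.comp PTime.id.fst) (PTime.const [])) (PTime.const true) ?_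
  have h2 : PTime O (fun p : (γ × List Unit) × Unit × List Unit =>
      (X p.1.1).getD p.2.2.length ([], [])) :=
    PTime.getD PTime.id.snd.snd (hX.comp PTime.id.fst.fst) (PTime.const ([], []))
  exact PTime.nat_lt (PTime.gB h2.snd PTime.id.fst.snd).snd
    (h1.comp PTime.id.fst).snd

theorem PTime.sameB {e e' : γ → List (ℕ × ℕ)} (he : PTime O e) (he' : PTime O e') :
    PTime O (fun x => CKP.sameB (e x) (e' x)) := by
  unfold CKP.sameB
  refine (PTime.nat_eq he.length he'.length).and (PTime.all (f := fun x (u : List Unit) =>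
    decide ((CKP.gB (e x) u.length).1 = (CKP.gB (e' x) u.length).1)) (PTime.rangeU he.ulen) ?_)
  exact PTime.nat_eq (PTime.gB (he.comp PTime.id.fst) PTime.id.snd).fst
    (PTime.gB (he'.comp PTime.id.fst) PTime.id.snd).fst

theorem PTime.exclB (hV : PTime O (fun p : List Bool × List Bool => V p.1 p.2))
    {X : γ → List (List Bool × List (ℕ × ℕ))} {v : γ → List Bool} (hX : PTime O X)
    (hv : PTime O v) : PTime O (fun x => CKP.exclB κ k V (X x) (v x)) := by
  unfold CKP.exclB
  refine (PTime.all (f := fun x (y : List Bool × List (ℕ × ℕ)) =>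
    CKP.sameB y.2 ((X x).headD ([], [])).2) hX ?_).and
    (PTime.all (f := fun x (σ : List (List Unit)) =>
      !(CKP.eqB ((X x).map fun y => V y.1 (CKP.patB (X x) σ y.2)) (v x)))
      (PTime.const (CKP.tuples κ (CKP.rangeU (List.replicate (k + 1) ())))) ?_)
  · exact PTime.sameB PTime.id.snd.snd (PTime.headD (hX.comp PTime.id.fst)
      (PTime.const ([], []))).snd
  · refine (PTime.eqB ?_ (hv.comp PTime.id.fst)).not
    refine PTime.map (f := fun (p : γ × List (List Unit)) (y : List Bool × List (ℕ × ℕ)) =>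
      V y.1 (CKP.patB (X p.1) p.2 y.2)) (hX.comp PTime.id.fst) ?_
    exact hV.comp (PTime.id.snd.fst.pair (PTime.patB (hX.comp PTime.id.fst.fst)
      PTime.id.fst.snd PTime.id.snd.snd))

theorem PTime.evB (hver : Ver O W ℓ)
    (hphi : PTime O (fun p : π × List (Bool × ℕ) × List Bool => phi p.1 p.2.1 p.2.2))
    {T : γ → List (Bool × ℕ)} {N : γ → π} {n : γ → List Unit} {q : γ → List Bool}
    (hT : PTime O T) (hN : PTime O N) (hn : PTime O n) (hq : PTime O q) :
    PTime O (fun x => CKP.evB W phi r d (T x) (N x) (n x) (q x)) := by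
  unfold CKP.evB
  refine PTime.ite hq.typ (PTime.ite (PTime.valid hver r d hq) (PTime.ite
    (PTime.nat_lt hn.length hq.wss.length) (PTime.const (1, 0)) (PTime.ite
      ((hphi.comp (hN.pair (hT.pair hq.xx))).or (PTime.guardT hq.wss hT)) (PTime.const (1, 0))
      (PTime.const (0, 0)))) (PTime.const (0, 0))) ?_
  exact (PTime.nat_add hq.colr.length (PTime.const 2)).pair hq.thr

theorem PTime.revB (hver : Ver O W ℓ) {n : γ → List Unit} {U : γ → ℕ} {q : γ → List Bool}
    (hn : PTime O n) (hU : PTime O U) (hq : PTime O q) :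
    PTime O (fun x => CKP.revB W r d (n x) (U x) (q x)) := by
  unfold CKP.revB
  have hent := PTime.ent hq.wss hn
  exact hq.typ.and ((PTime.valid hver r d hq).and ((PTime.nat_lt hn.length hq.wss.length).and
    (hent.fst.and (PTime.nat_lt hent.snd hU))))

theorem PTime.zl {n i : γ → List Unit} {A : γ → List ℕ} {U : γ → ℕ} (hn : PTime O n)
    (hi : PTime O i) (hA : PTime O A) (hU : PTime O U) :
    PTime O (fun x => CKP.zl (n x) (i x) (A x) (U x)) := by
  unfold CKP.zl
  exact PTime.enc (hn.code.consD (hi.code.consD (hA.code.consD hU.code)))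

theorem PTime.evalB (hver : Ver O W ℓ)
    (hphi : PTime O (fun p : π × List (Bool × ℕ) × List Bool => phi p.1 p.2.1 p.2.2))
    (hQ : PTime O Q) {T : γ → List (Bool × ℕ)} {N : γ → π} {n i : γ → List Unit} {U : γ → ℕ}
    {A : γ → List (List ℕ)} (hT : PTime O T) (hN : PTime O N) (hn : PTime O n) (hi : PTime O i)
    (hU : PTime O U) (hA : PTime O A) :
    PTime O (fun x => CKP.evalB W phi r d Q (T x) (N x) (n x) (i x) (U x) (A x)) := by
  unfold CKP.evalB
  refine PTime.map (f := fun x (B : List ℕ) => (CKP.zl (n x) (i x) B (U x),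
    (Q (CKP.zl (n x) (i x) B (U x))).map fun q => CKP.evB W phi r d (T x) (N x) (n x) q)) hA ?_
  have h1 : PTime O (fun p : γ × List ℕ => CKP.zl (n p.1) (i p.1) p.2 (U p.1)) :=
    PTime.zl (hn.comp PTime.id.fst) (hi.comp PTime.id.fst) PTime.id.snd (hU.comp PTime.id.fst)
  refine h1.pair (PTime.map (f := fun (p : γ × List ℕ) (q : List Bool) =>
    CKP.evB W phi r d (T p.1) (N p.1) (n p.1) q) (hQ.comp h1) ?_)
  exact PTime.evB hver hphi (hT.comp PTime.id.fst.fst) (hN.comp PTime.id.fst.fst)
    (hn.comp PTime.id.fst.fst) PTime.id.snd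

theorem PTime.candB (hver : Ver O W ℓ)
    (hphi : PTime O (fun p : π × List (Bool × ℕ) × List Bool => phi p.1 p.2.1 p.2.2))
    (hQ : PTime O Q) (hV : PTime O (fun p : List Bool × List Bool => V p.1 p.2))
    {T : γ → List (Bool × ℕ)} {N : γ → π} {n i : γ → List Unit} {U : γ → ℕ}
    {L : γ → List ℕ} (hT : PTime O T) (hN : PTime O N) (hn : PTime O n) (hi : PTime O i)
    (hU : PTime O U) (hL : PTime O L) :
    PTime O (fun x => CKP.candB W phi r d κ k s Q V (T x) (N x) (n x) (i x) (U x) (L x)) := by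
  unfold CKP.candB
  refine PTime.flatMap (f := fun x (A : List (List ℕ)) => (L x).filter fun a =>
    CKP.exclB κ k V (CKP.evalB W phi r d Q (T x) (N x) (n x) (i x) (U x) A)
      (A.map fun B => B.any fun b => decide (b = a))) (PTime.tuples k (PTime.tuples s hL)) ?_
  refine PTime.filter (f := fun (p : γ × List (List ℕ)) (a : ℕ) =>
    CKP.exclB κ k V (CKP.evalB W phi r d Q (T p.1) (N p.1) (n p.1) (i p.1) (U p.1) p.2)
      (p.2.map fun B => B.any fun b => decide (b = a))) (hL.comp PTime.id.fst) ?_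
  refine PTime.exclB hV ?_ ?_
  · exact PTime.evalB hver hphi hQ (hT.comp PTime.id.fst.fst) (hN.comp PTime.id.fst.fst)
      (hn.comp PTime.id.fst.fst) (hi.comp PTime.id.fst.fst) (hU.comp PTime.id.fst.fst)
      PTime.id.fst.snd
  · refine PTime.map (f := fun (p : (γ × List (List ℕ)) × ℕ) (B : List ℕ) =>
      B.any fun b => decide (b = p.2)) PTime.id.fst.snd ?_
    exact PTime.any (f := fun (p : ((γ × List (List ℕ)) × ℕ) × List ℕ) (b : ℕ) =>
      decide (b = p.1.2)) PTime.id.snd (PTime.nat_eq PTime.id.snd PTime.id.fst.fst.snd)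

theorem PTime.stepB (hver : Ver O W ℓ)
    (hphi : PTime O (fun p : π × List (Bool × ℕ) × List Bool => phi p.1 p.2.1 p.2.2))
    (hQ : PTime O Q) (hV : PTime O (fun p : List Bool × List Bool => V p.1 p.2))
    {T : γ → List (Bool × ℕ)} {N : γ → π} {n i : γ → List Unit} {U : γ → ℕ}
    {L : γ → List ℕ} (hT : PTime O T) (hN : PTime O N) (hn : PTime O n) (hi : PTime O i)
    (hU : PTime O U) (hL : PTime O L) :
    PTime O (fun x => CKP.stepB W phi r d κ k s Q V (T x) (N x) (n x) (i x) (U x) (L x)) := by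
  unfold CKP.stepB
  refine PTime.lcase (l := fun x =>
    CKP.candB W phi r d κ k s Q V (T x) (N x) (n x) (i x) (U x) (L x)) (n := L)
    (c := fun x (a : ℕ) _ => (L x).filter fun b => !(decide (b = a)))
    (PTime.candB hver hphi hQ hV hT hN hn hi hU hL) hL ?_
  exact PTime.filter (f := fun (p : γ × ℕ × List ℕ) (b : ℕ) => !(decide (b = p.2.1)))
    (hL.comp PTime.id.fst) (PTime.nat_eq PTime.id.snd PTime.id.fst.snd.fst).not

theorem sz_sublist {l l' : List α} (h : l'.Sublist l) : sz l' ≤ sz l := by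
  induction h with
  | slnil => exact le_rfl
  | cons a _ ih => rw [sz_cons]; omega
  | cons_cons a _ ih => rw [sz_cons, sz_cons]; omega

theorem PTime.pruneB (hver : Ver O W ℓ)
    (hphi : PTime O (fun p : π × List (Bool × ℕ) × List Bool => phi p.1 p.2.1 p.2.2))
    (hQ : PTime O Q) (hV : PTime O (fun p : List Bool × List Bool => V p.1 p.2))
    {T : γ → List (Bool × ℕ)} {N : γ → π} {n i : γ → List Unit} {U : γ → ℕ}
    {L : γ → List ℕ} (hT : PTime O T) (hN : PTime O N) (hn : PTime O n) (hi : PTime O i)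
    (hU : PTime O U) (hL : PTime O L) :
    PTime O (fun x => CKP.pruneB W phi r d κ k s Q V (T x) (N x) (n x) (i x) (U x) (L x)) := by
  obtain ⟨PL, hPL⟩ := hL.size_le
  unfold CKP.pruneB
  refine PTime.foldl (l := L) (i := L) (s := fun x L' _ =>
    CKP.stepB W phi r d κ k s Q V (T x) (N x) (n x) (i x) (U x) L') hL hL ?_ PL ?_
  · exact PTime.stepB hver hphi hQ hV (hT.comp PTime.id.fst) (hN.comp PTime.id.fst)
      (hn.comp PTime.id.fst) (hi.comp PTime.id.fst) (hU.comp PTime.id.fst) PTime.id.snd.fst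
  · intro x l' _
    exact (sz_sublist (foldB_sublist l' (L x))).trans (hPL x)

theorem PTime.hitsB (hver : Ver O W ℓ) (hQ : PTime O Q) {n i : γ → List Unit} {U : γ → ℕ}
    {L : γ → List ℕ} (hn : PTime O n) (hi : PTime O i) (hU : PTime O U) (hL : PTime O L) :
    PTime O (fun x => CKP.hitsB W r d s Q (n x) (i x) (U x) (L x)) := by
  unfold CKP.hitsB
  refine PTime.flatMap (f := fun x (A : List ℕ) => (Q (CKP.zl (n x) (i x) A (U x))).filter
    fun q => CKP.revB W r d (n x) (U x) q) (PTime.tuples s hL) ?_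
  refine PTime.filter (f := fun (p : γ × List ℕ) (q : List Bool) =>
    CKP.revB W r d (n p.1) (U p.1) q) (hQ.comp (PTime.zl (hn.comp PTime.id.fst)
      (hi.comp PTime.id.fst) PTime.id.snd (hU.comp PTime.id.fst))) ?_
  exact PTime.revB hver (hn.comp PTime.id.fst.fst) (hU.comp PTime.id.fst.fst) PTime.id.snd

theorem PTime.levelB (hver : Ver O W ℓ)
    (hphi : PTime O (fun p : π × List (Bool × ℕ) × List Bool => phi p.1 p.2.1 p.2.2))
    (hQ : PTime O Q) (hV : PTime O (fun p : List Bool × List Bool => V p.1 p.2))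
    {T : γ → List (Bool × ℕ)} {N : γ → π} {n : γ → List Unit} {U : γ → ℕ}
    {st : γ → List Unit × List ℕ} (hT : PTime O T) (hN : PTime O N) (hn : PTime O n)
    (hU : PTime O U) (hst : PTime O st) :
    PTime O (fun x => CKP.levelB W phi r d κ k s Q V (T x) (N x) (n x) (U x) (st x)) := by
  unfold CKP.levelB
  have hi : PTime O (fun x => (st x).1.tail) := PTime.tail hst.fst
  have hL : PTime O (fun x => CKP.children (st x).2) := PTime.children hst.snd
  refine hi.pair (PTime.lcase (l := fun x =>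
    CKP.hitsB W r d s Q (n x) (st x).1.tail (U x) (CKP.children (st x).2))
    (n := fun x => CKP.pruneB W phi r d κ k s Q V (T x) (N x) (n x) (st x).1.tail (U x)
      (CKP.children (st x).2))
    (c := fun x (q : List Bool) _ => [CKP.ushr (st x).1.tail (CKP.ent (CKP.wss q) (n x).length).2])
    (PTime.hitsB hver hQ hn hi hU hL) (PTime.pruneB hver hphi hQ hV hT hN hn hi hU hL) ?_)
  exact PTime.cons (PTime.ushr (hi.comp PTime.id.fst) (PTime.ent (PTime.wss PTime.id.snd.fst)
    (hn.comp PTime.id.fst)).snd) (PTime.const [])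

theorem UPoly.NB {P : ℕ → ℕ} (hP : UPoly O P) (s : ℕ) : UPoly O (fun n => CKP.NB (P n) s) := by
  induction s with
  | zero => exact UPoly.const 0
  | succ s ih => exact ih.add ((((ih.mul ih).pow s).mul hP).add (UPoly.const 1))

theorem UPoly.NL {M : ℕ → ℕ} (hM : UPoly O M) (κ k : ℕ) : UPoly O (CKP.NL κ k M) :=
  UPoly.NB ((UPoly.const (κ + 1)).mul ((hM.add (UPoly.const 2)).pow κ)) (2 ^ k)

theorem PTime.capB (hℓ : UPoly O ℓ) {n : γ → List Unit} {U : γ → ℕ} (hn : PTime O n)
    (hU : PTime O U) : PTime O (fun x => CKP.capB ℓ (n x) (U x)) := by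
  unfold CKP.capB
  exact PTime.ite (PTime.nat_le hU (PTime.ushl (hℓ.comp hn) (PTime.const 1))) hU (PTime.const 0)

theorem PTime.searchB (hver : Ver O W ℓ)
    (hphi : PTime O (fun p : π × List (Bool × ℕ) × List Bool => phi p.1 p.2.1 p.2.2))
    (hQ : PTime O Q) (hV : PTime O (fun p : List Bool × List Bool => V p.1 p.2)) {M : ℕ → ℕ}
    (hM : UPoly O M) (hcol : ColBs ℓ (2 ^ k) Q M) (hk : (k + 1) ^ κ < 2 ^ k)
    (hκ : ∀ z, (Q z).length ≤ κ)
    {T : γ → List (Bool × ℕ)} {N : γ → π} {n : γ → List Unit} {U : γ → ℕ}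
    (hT : PTime O T) (hN : PTime O N) (hn : PTime O n) (hU : PTime O U) :
    PTime O (fun x => CKP.searchB W phi ℓ r d κ k (2 ^ k) Q V (T x) (N x) (n x) (U x)) := by
  obtain ⟨Pl, hPl⟩ := hver.hl.bound
  obtain ⟨PM, hPM⟩ := (UPoly.NL hM κ k).bound
  obtain ⟨Pn, hPn⟩ := hn.size_le
  have hC : PTime O (fun x => CKP.capB ℓ (n x) (U x)) := PTime.capB hver.hl hn hU
  unfold CKP.searchB CKP.srchB
  refine PTime.hit hver hn hC (PTime.snd ?_)
  refine PTime.foldl (l := fun x => List.replicate (ℓ (n x).length) ())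
    (i := fun x => (List.replicate (ℓ (n x).length) (), [0]))
    (s := fun x st _ => CKP.levelB W phi r d κ k (2 ^ k) Q V (T x) (N x) (n x)
      (CKP.capB ℓ (n x) (U x)) st) (hver.hl.comp hn)
    ((hver.hl.comp hn).pair (PTime.const [0])) ?_
    (2 * Pl.comp Pn + 2 + ((PM.comp Pn + 1) * (4 * Pl.comp Pn + 2) + 1)) ?_
  · exact PTime.levelB hver hphi hQ hV (hT.comp PTime.id.fst) (hN.comp PTime.id.fst)
      (hn.comp PTime.id.fst) (hC.comp PTime.id.fst) PTime.id.snd.fst
  · intro x l' hl'
    obtain ⟨j, hj⟩ : ∃ j, ℓ (n x).length = j + l'.length := by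
      have := hl'.length_le
      rw [List.length_replicate] at this
      exact ⟨ℓ (n x).length - l'.length, by omega⟩
    have h1 := foldLB_size (phi := phi) (r := r) (d := d) (V := V) hver hcol hk hκ (T x) (N x)
      (n x) (CKP.capB ℓ (n x) (U x)) (capB_le _ _) l'.length j hj.symm
    rw [← units_eq l'] at h1
    obtain ⟨h2, h3, h4, _⟩ := h1
    generalize l'.foldl (fun st _ => CKP.levelB W phi r d κ k (2 ^ k) Q V (T x) (N x) (n x)
      (CKP.capB ℓ (n x) (U x)) st) (List.replicate (ℓ (n x).length) (), [0]) = st at h2 h3 h4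
    obtain ⟨s1, s2⟩ := st
    simp only at h2 h3 h4
    subst h2
    rw [sz_pair, sz_units, List.length_replicate]
    have hlen : (n x).length ≤ Pn.eval (sz x) := (length_le_sz _).trans (hPn x)
    have h5 : ℓ (n x).length ≤ Pl.eval (Pn.eval (sz x)) := (hPl _).trans (poly_mono Pl hlen)
    have h6 : CKP.NL κ k M (n x).length ≤ PM.eval (Pn.eval (sz x)) :=
      (hPM _).trans (poly_mono PM hlen)
    have h7 := sz_list_le (s := 4 * Pl.eval (Pn.eval (sz x)) + 1) s2 (by
      intro c hc
      have h8 := sz_nat_le_of_lt (h3 c hc)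
      omega)
    have h9 : s2.length * (4 * Pl.eval (Pn.eval (sz x)) + 1 + 1) ≤
        (PM.eval (Pn.eval (sz x)) + 1) * (4 * Pl.eval (Pn.eval (sz x)) + 2) :=
      Nat.mul_le_mul (by omega) (by omega)
    simp only [Polynomial.eval_add, Polynomial.eval_mul, Polynomial.eval_ofNat,
      Polynomial.eval_one, Polynomial.eval_comp]
    omega

theorem PTime.leastB (hver : Ver O W ℓ)
    (hphi : PTime O (fun p : π × List (Bool × ℕ) × List Bool => phi p.1 p.2.1 p.2.2))
    (hQ : PTime O Q) (hV : PTime O (fun p : List Bool × List Bool => V p.1 p.2)) {M : ℕ → ℕ}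
    (hM : UPoly O M) (hcol : ColBs ℓ (2 ^ k) Q M) (hk : (k + 1) ^ κ < 2 ^ k)
    (hκ : ∀ z, (Q z).length ≤ κ)
    {T : γ → List (Bool × ℕ)} {N : γ → π} {n : γ → List Unit}
    (hT : PTime O T) (hN : PTime O N) (hn : PTime O n) :
    PTime O (fun x => CKP.leastB W phi ℓ r d κ k (2 ^ k) Q V (T x) (N x) (n x)) := by
  unfold CKP.leastB
  exact PTime.gfind (g := fun x U =>
    CKP.searchB W phi ℓ r d κ k (2 ^ k) Q V (T x) (N x) (n x) U)
    (hver.hl.comp hn) (PTime.searchB hver hphi hQ hV hM hcol hk hκ (hT.comp PTime.id.fst)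
      (hN.comp PTime.id.fst) (hn.comp PTime.id.fst) PTime.id.snd)

theorem PTime.tableB (hver : Ver O W ℓ)
    (hphi : PTime O (fun p : π × List (Bool × ℕ) × List Bool => phi p.1 p.2.1 p.2.2))
    (hQ : PTime O Q) (hV : PTime O (fun p : List Bool × List Bool => V p.1 p.2)) {M : ℕ → ℕ}
    (hM : UPoly O M) (hcol : ColBs ℓ (2 ^ k) Q M) (hk : (k + 1) ^ κ < 2 ^ k)
    (hκ : ∀ z, (Q z).length ≤ κ) {N : γ → π} {n : γ → List Unit}
    (hN : PTime O N) (hn : PTime O n) :
    PTime O (fun x => CKP.tableB W phi ℓ r d κ k (2 ^ k) Q V (N x) (n x)) := by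
  obtain ⟨Pl, hPl⟩ := hver.hl.bound
  obtain ⟨Pn, hPn⟩ := hn.size_le
  unfold CKP.tableB
  refine PTime.foldl (l := n) (i := fun _ => ([] : List (Bool × ℕ)))
    (s := fun x T _ => T ++ [CKP.leastB W phi ℓ r d κ k (2 ^ k) Q V T (N x) (CKP.ulen T)]) hn
    (PTime.const _) ?_ (Pn * (4 * Pl.comp Pn + 6) + 1) ?_
  · exact PTime.append PTime.id.snd.fst (PTime.cons (PTime.leastB hver hphi hQ hV hM hcol hk hκ
      PTime.id.snd.fst (hN.comp PTime.id.fst) (PTime.ulen PTime.id.snd.fst)) (PTime.const []))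
  · intro x l' hl'
    rw [units_eq l']
    have hlen : l'.length ≤ Pn.eval (sz x) :=
      (hl'.length_le.trans (length_le_sz _)).trans (hPn x)
    have h1 := tableB_length (W := W) (phi := phi) (ℓ := ℓ) (r := r) (d := d) (κ := κ)
      (k := k) (s := 2 ^ k) (Q := Q) (V := V) (N x) l'.length
    have h2 : ∀ c ∈ CKP.tableB W phi ℓ r d κ k (2 ^ k) Q V (N x) (List.replicate l'.length ()),
        sz c ≤ 4 * Pl.eval (Pn.eval (sz x)) + 5 := by
      intro c hc
      obtain ⟨i, hi, rfl⟩ := List.getElem_of_mem hc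
      rw [h1] at hi
      have h3 := tableB_ent (W := W) (phi := phi) (ℓ := ℓ) (r := r) (d := d) (κ := κ)
        (k := k) (s := 2 ^ k) (Q := Q) (V := V) (N x) l'.length i hi
      have h4 : CKP.ent (CKP.tableB W phi ℓ r d κ k (2 ^ k) Q V (N x)
          (List.replicate l'.length ())) i = (CKP.tableB W phi ℓ r d κ k (2 ^ k) Q V (N x)
          (List.replicate l'.length ()))[i]'(by rw [h1]; exact hi) := by
        unfold CKP.ent
        rw [List.getD_eq_getElem?_getD, List.getElem?_eq_getElem (by rw [h1]; exact hi),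
          Option.getD_some]
      rw [← h4, h3]
      generalize CKP.tableB W phi ℓ r d κ k (2 ^ k) Q V (N x) (List.replicate i ()) = T
      have h5 := gfind_lt (CKP.searchB W phi ℓ r d κ k (2 ^ k) Q V T (N x)
        (List.replicate i ())) (ℓ i)
      have h6 := sz_nat_le_of_lt h5
      have h7 := (num_bool_sz (CKP.leastB W phi ℓ r d κ k (2 ^ k) Q V T (N x)
        (List.replicate i ())).1).2
      have h8 : sz (CKP.leastB W phi ℓ r d κ k (2 ^ k) Q V T (N x) (List.replicate i ())) =
        sz (CKP.leastB W phi ℓ r d κ k (2 ^ k) Q V T (N x) (List.replicate i ())).1 +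
        sz (CKP.leastB W phi ℓ r d κ k (2 ^ k) Q V T (N x) (List.replicate i ())).2 + 1 := rfl
      have h9 : ℓ i ≤ Pl.eval (Pn.eval (sz x)) := (hPl i).trans (poly_mono Pl (by omega))
      have h10 : (CKP.leastB W phi ℓ r d κ k (2 ^ k) Q V T (N x) (List.replicate i ())).2 =
        (CKP.gfind (CKP.searchB W phi ℓ r d κ k (2 ^ k) Q V T (N x) (List.replicate i ()))
          (List.replicate (ℓ i) ())).2 := by
        unfold CKP.leastB
        rw [List.length_replicate]
      rw [← h10] at h6
      omega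
    have h3 := sz_list_le _ h2
    rw [h1] at h3
    have h4 : l'.length * (4 * Pl.eval (Pn.eval (sz x)) + 5 + 1) ≤
        Pn.eval (sz x) * (4 * Pl.eval (Pn.eval (sz x)) + 6) := Nat.mul_le_mul hlen le_rfl
    simp only [Polynomial.eval_add, Polynomial.eval_mul, Polynomial.eval_ofNat,
      Polynomial.eval_one, Polynomial.eval_comp]
    refine le_trans h3 ?_
    omega

/-! ### bound for the colours -/

theorem zl_size {n i : List Unit} {A : List ℕ} {U L s : ℕ} (hi : i.length ≤ L)
    (hA : A.length = s) (hAL : ∀ a ∈ A, a < 2 ^ L) (hU : U ≤ 2 ^ L) :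
    (zl n i A U).length ≤ 2 * n.length + 10 * L + s * (4 * L + 2) + 20 := by
  unfold zl
  rw [D.enc_length]
  have h1 : (D.cons (toD n) (.cons (toD i) (.cons (toD A) (toD U)))).size =
      sz n + (sz i + (sz A + sz U + 1) + 1) + 1 := rfl
  rw [h1, sz_units, sz_units]
  have h2 := sz_list_le (s := 4 * L + 1) A (fun a ha => by
    have := sz_nat_le_of_lt (hAL a ha)
    omega)
  rw [hA, show 4 * L + 1 + 1 = 4 * L + 2 from rfl] at h2
  have h3 : U < 2 ^ (L + 1) := by rw [pow_succ]; have : 0 < 2 ^ L := by positivity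
                                  omega
  have h4 := sz_nat_le_of_lt h3
  omega

theorem exists_colBs (hver : Ver O W ℓ) (hQ : PTime O Q) (s : ℕ) :
    ∃ M : ℕ → ℕ, UPoly O M ∧ ColBs ℓ s Q M := by
  obtain ⟨P, hP⟩ := hQ.size_le
  refine ⟨fun n => 3 * P.eval (4 * (2 * n + 10 * ℓ n + s * (4 * ℓ n + 2) + 20) + 1) + 2, ?_, ?_⟩
  · have h1 : UPoly O (fun n => 4 * (2 * n + 10 * ℓ n + s * (4 * ℓ n + 2) + 20) + 1) :=
      ((UPoly.const 4).mul (((((UPoly.const 2).mul UPoly.id).add ((UPoly.const 10).mul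
        hver.hl)).add ((UPoly.const s).mul (((UPoly.const 4).mul hver.hl).add
        (UPoly.const 2)))).add (UPoly.const 20))).add (UPoly.const 1)
    have h2 : UPoly O (fun n => P.eval (4 * (2 * n + 10 * ℓ n + s * (4 * ℓ n + 2) + 20) + 1)) := by
      unfold UPoly
      refine (PTime.comp (g := fun u : List Unit => List.replicate (P.eval u.length) ())
        (UPoly.poly P) h1).of_eq fun u => ?_
      rw [List.length_replicate]
    exact ((UPoly.const 3).mul h2).add (UPoly.const 2)
  · intro n i A U hi hA hAL hU q hq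
    have h1 := colr_le q
    have h2 := length_le_sz q
    have h2' := sz_le_of_mem hq
    have h3 := hP (zl n i A U)
    have h4 : sz (zl n i A U) ≤
        4 * (2 * n.length + 10 * ℓ n.length + s * (4 * ℓ n.length + 2) + 20) + 1 := by
      have g1 := size_bits (zl n i A U)
      have g2 := zl_size (n := n) hi hA hAL hU
      have g3 : sz (zl n i A U) = (toD (zl n i A U)).size := rfl
      omega
    have h5 := poly_mono P h4
    show _ < 3 * P.eval (4 * (2 * n.length + 10 * ℓ n.length + s * (4 * ℓ n.length + 2) + 20) +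
      1) + 2
    omega

/-! ### the theorems -/

/-- a bounded truth-table reduction in terms of typed polynomial time -/
def BData (O : Lang) (A B : Lang) : Prop :=
  ∃ (κ : ℕ) (Q : List Bool → List (List Bool)) (V : List Bool → List Bool → Bool), PTime O Q ∧
    PTime O (fun p : List Bool × List Bool => V p.1 p.2) ∧ (∀ z, (Q z).length ≤ κ) ∧
    ∀ z, A z = V z ((Q z).map B)

/-- The table of the least witnesses, if short instances of the universal language can be decided
from the table. -/
theorem table_of_data (hneg : ∀ C, TuringComplete O C → ∀ A, InNP O A → BData O A C)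
    (hver : Ver O W ℓ) {phi : π → List (Bool × ℕ) → List Bool → Bool}
    (hphi : PTime O (fun p : π × List (Bool × ℕ) × List Bool => phi p.1 p.2.1 p.2.2)) {rr : ℕ}
    (hrr : 1 ≤ rr) :
    ∃ Tab : π → List Unit → List (Bool × ℕ),
      PTime O (fun p : π × List Unit => Tab p.1 p.2) ∧ ∀ (N : π) (n0 : ℕ),
        (∀ (T : List (Bool × ℕ)) (y : List Bool), T.length < n0 →
          (∀ i < T.length, LeastSpec W i (ent T i)) → y.length ^ rr ≤ T.length →
          phi N T y = UK O y) →
        ∀ n ≤ n0, ∀ i < n, LeastSpec W i (ent (Tab N (List.replicate n ())) i) := by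
  obtain ⟨d, hd⟩ := CL_complete hver
  obtain ⟨κ, Q, V, hQ, hV, hκ, hQV⟩ := hneg _ (hd rr hrr) (ZLs W) (ZLs_inNP hver)
  obtain ⟨k, hk⟩ := exists_dim κ
  obtain ⟨M, hM, hcol⟩ := exists_colBs hver hQ (2 ^ k)
  refine ⟨fun N n => tableB W phi ℓ rr d κ k (2 ^ k) Q V N n,
    PTime.tableB hver hphi hQ hV hM hcol hk hκ PTime.id.fst PTime.id.snd, fun N n0 hcor => ?_⟩
  exact tableB_spec hver hcol hk hQV hκ hcor

/-- Solver with exhaustive search for short instances. -/
theorem solver_of_data (hneg : ∀ C, TuringComplete O C → ∀ A, InNP O A → BData O A C)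
    (hver : Ver O W ℓ) (r : ℕ) (hr : 1 ≤ r) :
    ∃ S : List Unit → List Unit → Bool × ℕ,
      PTime O (fun p : List Unit × List Unit => S p.1 p.2) ∧
      ∀ (n : ℕ) (N : List Unit), 2 ^ rt r n ≤ N.length →
        LeastSpec W n (S N (List.replicate n ())) := by
  obtain ⟨Tab, hTab, hspec⟩ := table_of_data hneg hver
    (phi := fun (N : List Unit) (_ : List (Bool × ℕ)) (y : List Bool) => (brute O y N).2)
    ((PTime.brute PTime.id.snd.snd PTime.id.fst).snd) hr
  refine ⟨fun N n => ent (Tab N (() :: n)) n.length, ?_, ?_⟩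
  · exact PTime.ent (hTab.comp (PTime.id.fst.pair (PTime.cons (PTime.const ()) PTime.id.snd)))
      PTime.id.snd
  · intro n N hN
    have h := hspec N (n + 1) (by
      intro T y hT _ hy
      show (brute O y N).2 = UK O y
      rw [Bool.eq_iff_iff]
      refine brute_eq ((Nat.pow_le_pow_right (by norm_num) ?_).trans hN)
      exact rt_ge hr (by omega)) (n + 1) le_rfl n (by omega)
    have h1 : (() :: List.replicate n ()) = List.replicate (n + 1) () := rfl
    show LeastSpec W n (ent (Tab N (() :: List.replicate n ())) (List.replicate n ()).length)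
    rw [h1, List.length_replicate]
    exact h

end Pool.Agent.CKP
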