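import Pool.Agent.Lib_helper74.NF.Main
import Pool.Agent.Lib_helper57.YB.Comb

/-!
# The pruning for bounded truth-table reductions: definitions and correctness (MP_675993_lc)
-/

set_option autoImplicit false
set_option linter.unusedSectionVars false
set_option linter.unusedVariables false

namespace Pool.Agent.CKP

open Pool.Agent.CK

variable {O : Lang}

/-! ### instances: lists of nodes -/

/-- instance: some node of the list `A` on level `i` contains a witness `v < U` for `n` -/
def zl (n i : List Unit) (A : List ℕ) (U : ℕ) : List Bool :=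
  (D.cons (toD n) (.cons (toD i) (.cons (toD A) (toD U)))).enc

def zln (w : List Bool) : List D := toList (dec w).car
def zli (w : List Bool) : List D := toList (dec w).cdr.car
def zlA (w : List Bool) : List ℕ := (toList (dec w).cdr.cdr.car).map fun d => ofBits (toBits d)
def zlU (w : List Bool) : ℕ := ofBits (toBits (dec w).cdr.cdr.cdr)

theorem zln_zl (n i : List Unit) (A : List ℕ) (U : ℕ) : (zln (zl n i A U)).length = n.length := by
  unfold zln zl
  rw [dec_enc]
  show (toList (toD n)).length = _
  rw [toList_toD, List.length_map]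

theorem zli_zl (n i : List Unit) (A : List ℕ) (U : ℕ) : (zli (zl n i A U)).length = i.length := by
  unfold zli zl
  rw [dec_enc]
  show (toList (toD i)).length = _
  rw [toList_toD, List.length_map]

theorem zlA_zl (n i : List Unit) (A : List ℕ) (U : ℕ) : zlA (zl n i A U) = A := by
  unfold zlA zl
  rw [dec_enc]
  show (toList (toD A)).map _ = _
  rw [toList_toD, List.map_map]
  conv_rhs => rw [← List.map_id A]
  congr 1
  funext a
  show ofBits (toBits (toD a)) = a
  rw [toBits_toD_nat, ofBits_bits]

theorem zlU_zl (n i : List Unit) (A : List ℕ) (U : ℕ) : zlU (zl n i A U) = U := by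
  unfold zlU zl
  rw [dec_enc]
  show ofBits (toBits (toD U)) = U
  rw [toBits_toD_nat, ofBits_bits]

open Classical in
/-- the language of these instances -/
noncomputable def ZLs (W : ℕ → ℕ → Bool) : Lang := fun w =>
  decide (∃ a ∈ zlA w, ∃ v, v / 2 ^ (zli w).length = a ∧ v < zlU w ∧ W (zln w).length v = true)

theorem ZLs_zl {W : ℕ → ℕ → Bool} (n i : List Unit) (A : List ℕ) (U : ℕ) :
    ZLs W (zl n i A U) = true ↔ ∃ a ∈ A, SN W n.length i.length a U := by
  simp only [ZLs, decide_eq_true_eq]
  rw [zln_zl, zli_zl, zlA_zl, zlU_zl]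
  rfl

theorem ZLs_inNP {W : ℕ → ℕ → Bool} {ℓ : ℕ → ℕ} (h : Ver O W ℓ) : InNP O (ZLs W) := by
  obtain ⟨P, hP⟩ := h.hl.bound
  have hzn : ∀ w : List Bool, (zln w).length ≤ 3 * w.length + 1 := fun w =>
    ((length_toList_le _).trans (size_car_le _)).trans (size_dec_le w)
  refine inNP_of (V := fun p => ((zlA p.1).any fun a =>
      decide (ushr (ulen (zli p.1)) (ofBits p.2) = a)) &&
      (decide (ofBits p.2 < zlU p.1) && W (zln p.1).length (ofBits p.2))) ?_
    (B := fun n => P.eval (3 * n + 1)) ?_ ?_ ?_
  · have h1 : PTime O (fun p : List Bool × List Bool => dec p.1) := PTime.dec PTime.id.fst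
    have h2 : PTime O (fun p : List Bool × List Bool => ofBits p.2) := PTime.ofBits PTime.id.snd
    have h3 : PTime O (fun p : List Bool × List Bool => zlA p.1) :=
      PTime.map (f := fun _ (d : D) => ofBits (toBits d)) h1.cdr.cdr.car.toList
        (PTime.id.snd.toBits.ofBits)
    have h4 : PTime O (fun p : List Bool × List Bool => ushr (ulen (zli p.1)) (ofBits p.2)) :=
      PTime.ushr (PTime.ulen h1.cdr.car.toList) h2
    refine (PTime.any (f := fun (p : List Bool × List Bool) (a : ℕ) =>
      decide (ushr (ulen (zli p.1)) (ofBits p.2) = a)) h3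
      (PTime.nat_eq (h4.comp PTime.id.fst) PTime.id.snd)).and ((PTime.nat_lt h2
        h1.cdr.cdr.cdr.toBits.ofBits).and (h.ptime h1.car.toList h2))
  · have := UPoly.poly (O := O) (P.comp (3 * Polynomial.X + 1))
    simpa [Polynomial.eval_comp] using this
  · intro w hw
    simp only [ZLs, decide_eq_true_eq] at hw
    obtain ⟨a, ha, v, hv, hU, hWv⟩ := hw
    refine ⟨v.bits, ?_, ?_⟩
    · have h1 := bits_length_le (h.hb _ v hWv)
      exact h1.trans ((hP _).trans (poly_mono P (hzn w)))
    · simp only [Bool.and_eq_true, decide_eq_true_eq, List.any_eq_true]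
      rw [ofBits_bits, ushr_eq, ulen_eq, List.length_replicate]
      exact ⟨⟨a, ha, hv⟩, hU, hWv⟩
  · intro w y hy
    simp only [Bool.and_eq_true, decide_eq_true_eq, List.any_eq_true] at hy
    rw [ushr_eq, ulen_eq, List.length_replicate] at hy
    simp only [ZLs, decide_eq_true_eq]
    obtain ⟨⟨a, ha, h1⟩, h2, h3⟩ := hy
    exact ⟨a, ha, _, h1, h2, h3⟩

/-! ### evaluation -/

/-- entry of a list of evaluations -/
def gB (e : List (ℕ × ℕ)) (i : ℕ) : ℕ × ℕ := e.getD i (0, 0)

/-- equality of bit strings -/
def eqB (a b : List Bool) : Bool := decide (ofBits (a ++ [true]) = ofBits (b ++ [true]))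

theorem eqB_iff {a b : List Bool} : eqB a b = true ↔ a = b := by
  unfold eqB
  rw [decide_eq_true_eq]
  constructor
  · intro h
    have h1 := congrArg Nat.bits h
    rw [bits_ofBits_snoc, bits_ofBits_snoc] at h1
    exact List.append_cancel_right h1
  · rintro rfl
    rfl

/-- the answers to the queries with evaluation `e`, in the cell `σ` (the entry `[]` of `σ`: the
unknown number is below all thresholds; the entry `s + 1`: the threshold of number `s` is the
largest one that is not above the unknown number) -/
def patB (X : List (List Bool × List (ℕ × ℕ))) (σ : List (List Unit)) (e : List (ℕ × ℕ)) :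
    List Bool :=
  (rangeU (ulen e)).map fun u =>
    if decide ((gB e u.length).1 = 0) = true then false
    else if decide ((gB e u.length).1 = 1) = true then true
    else lcase (σ.getD u.length []) true fun _ s =>
      decide ((gB (X.getD s.length ([], [])).2 u.length).2 < (gB e u.length).2)

/-- the same colours -/
def sameB (e e' : List (ℕ × ℕ)) : Bool :=
  decide (e.length = e'.length) &&
    (rangeU (ulen e)).all fun u => decide ((gB e u.length).1 = (gB e' u.length).1)

/-- the vector `v` of answers is impossible -/
def exclB (κ k : ℕ) (V : List Bool → List Bool → Bool) (X : List (List Bool × List (ℕ × ℕ)))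
    (v : List Bool) : Bool :=
  (X.all fun x => sameB x.2 (X.headD ([], [])).2) &&
    (tuples κ (rangeU (List.replicate (k + 1) ()))).all fun σ =>
      !(eqB (X.map fun x => V x.1 (patB X σ x.2)) v)

/-- the answer to a query with evaluation `c`; `tm m t`: the least witness for `m` is below `t` -/
def ansB (tm : ℕ → ℕ → Bool) (c : ℕ × ℕ) : Bool :=
  if c.1 = 0 then false else if c.1 = 1 then true else tm (c.1 - 2) c.2

section search

variable {π : Type} (W : ℕ → ℕ → Bool) (phi : π → List (Bool × ℕ) → List Bool → Bool)
  (ℓ : ℕ → ℕ) (r d κ k s : ℕ) (Q : List Bool → List (List Bool))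
  (V : List Bool → List Bool → Bool)

/-- evaluation of a query: `(0, 0)`: false, `(1, 0)`: true, `(m + 2, t)`: the least witness
for `m` is below `t` -/
def evB (T : List (Bool × ℕ)) (N : π) (n : List Unit) (q : List Bool) : ℕ × ℕ :=
  if typ q = true then
    if valid W r d q = true then
      if decide (n.length < (wss q).length) = true then (1, 0)
      else if (phi N T (xx q) || guardT (wss q) T) = true then (1, 0) else (0, 0)
    else (0, 0)
  else ((colr q).length + 2, thr q)

/-- the query contains a witness for `n` below `U` -/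
def revB (n : List Unit) (U : ℕ) (q : List Bool) : Bool :=
  typ q && (valid W r d q && (decide (n.length < (wss q).length) &&
    ((ent (wss q) n.length).1 && decide ((ent (wss q) n.length).2 < U))))

/-- the evaluated instances for a list of lists of nodes -/
def evalB (T : List (Bool × ℕ)) (N : π) (n i : List Unit) (U : ℕ) (A : List (List ℕ)) :
    List (List Bool × List (ℕ × ℕ)) :=
  A.map fun B => (zl n i B U, (Q (zl n i B U)).map fun q => evB W phi r d T N n q)

/-- elements that can be removed -/
def candB (T : List (Bool × ℕ)) (N : π) (n i : List Unit) (U : ℕ) (L : List ℕ) : List ℕ :=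
  (tuples k (tuples s L)).flatMap fun A => L.filter fun a =>
    exclB κ k V (evalB W phi r d Q T N n i U A) (A.map fun B => B.any fun b => decide (b = a))

/-- remove one element -/
def stepB (T : List (Bool × ℕ)) (N : π) (n i : List Unit) (U : ℕ) (L : List ℕ) : List ℕ :=
  lcase (candB W phi r d κ k s Q V T N n i U L) L
    fun a _ => L.filter fun b => !(decide (b = a))

/-- remove elements -/
def pruneB (T : List (Bool × ℕ)) (N : π) (n i : List Unit) (U : ℕ) (L : List ℕ) : List ℕ :=
  L.foldl (fun L' _ => stepB W phi r d κ k s Q V T N n i U L') L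

/-- queries that contain a witness -/
def hitsB (n i : List Unit) (U : ℕ) (L : List ℕ) : List (List Bool) :=
  (tuples s L).flatMap fun A => (Q (zl n i A U)).filter fun q => revB W r d n U q

/-- one level of the search -/
def levelB (T : List (Bool × ℕ)) (N : π) (n : List Unit) (U : ℕ) (st : List Unit × List ℕ) :
    List Unit × List ℕ :=
  (st.1.tail, lcase (hitsB W r d s Q n st.1.tail U (children st.2))
    (pruneB W phi r d κ k s Q V T N n st.1.tail U (children st.2))
    fun q _ => [ushr st.1.tail (ent (wss q) n.length).2])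

/-- the search for a witness of `n` below `U`, for `U ≤ 2 ^ ℓ n` -/
def srchB (T : List (Bool × ℕ)) (N : π) (n : List Unit) (U : ℕ) : Bool :=
  hit W n U ((List.replicate (ℓ n.length) ()).foldl
    (fun st _ => levelB W phi r d κ k s Q V T N n U st) (List.replicate (ℓ n.length) (), [0])).2

/-- `U`, if it is at most `2 ^ ℓ n` -/
def capB (n : List Unit) (U : ℕ) : ℕ :=
  if decide (U ≤ ushl (List.replicate (ℓ n.length) ()) 1) = true then U else 0

/-- the search for a witness of `n` below `U` -/
def searchB (T : List (Bool × ℕ)) (N : π) (n : List Unit) (U : ℕ) : Bool :=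
  srchB W phi ℓ r d κ k s Q V T N n (capB ℓ n U)

/-- the least witness for `n` -/
def leastB (T : List (Bool × ℕ)) (N : π) (n : List Unit) : Bool × ℕ :=
  gfind (searchB W phi ℓ r d κ k s Q V T N n) (List.replicate (ℓ n.length) ())

/-- the table of the least witnesses for `0, ..., |n| - 1` -/
def tableB (N : π) (n : List Unit) : List (Bool × ℕ) :=
  n.foldl (fun T _ => T ++ [leastB W phi ℓ r d κ k s Q V T N (ulen T)]) []

end search

/-! ### soundness of the exclusion -/

theorem length_patB (X : List (List Bool × List (ℕ × ℕ))) (σ : List (List Unit))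
    (e : List (ℕ × ℕ)) : (patB X σ e).length = e.length := by
  unfold patB
  rw [List.length_map, ulen_eq, rangeU_replicate, List.length_map, List.length_range]

theorem getElem_patB (X : List (List Bool × List (ℕ × ℕ))) (σ : List (List Unit))
    (e : List (ℕ × ℕ)) (i : ℕ) (hi : i < (patB X σ e).length) :
    (patB X σ e)[i] = if (gB e i).1 = 0 then false
      else if (gB e i).1 = 1 then true
      else lcase (σ.getD i []) true fun _ s =>
        decide ((gB (X.getD s.length ([], [])).2 i).2 < (gB e i).2) := by
  unfold patB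
  rw [List.getElem_map]
  have h1 : (rangeU (ulen e))[i]'(by
      rw [length_patB] at hi
      rw [ulen_eq, rangeU_replicate, List.length_map, List.length_range]; exact hi) =
      List.replicate i () := by
    simp only [ulen_eq, rangeU_replicate, List.getElem_map, List.getElem_range]
  rw [h1, List.length_replicate]
  simp only [decide_eq_true_eq]

theorem sameB_iff {e e' : List (ℕ × ℕ)} : sameB e e' = true ↔
    e.length = e'.length ∧ ∀ i < e.length, (gB e i).1 = (gB e' i).1 := by
  unfold sameB
  rw [Bool.and_eq_true, decide_eq_true_eq, ulen_eq, rangeU_replicate, List.all_map,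
    List.all_eq_true]
  simp only [List.mem_range, Function.comp_apply, List.length_replicate, decide_eq_true_eq]

theorem exists_cell {X : List (List Bool × List (ℕ × ℕ))} {κ k : ℕ} (hk : X.length ≤ k)
    {e0 : List (ℕ × ℕ)} (hX : ∀ x ∈ X, sameB x.2 e0 = true) (hκ : e0.length ≤ κ)
    {tm : ℕ → ℕ → Bool} (htm : ∀ m t t', t ≤ t' → tm m t = true → tm m t' = true) :
    ∃ σ ∈ tuples κ (rangeU (List.replicate (k + 1) ())), ∀ x ∈ X, patB X σ x.2 =
      x.2.map (ansB tm) := by
  classical
  -- the choice for position `l`
  have hch : ∀ l : ℕ, ∃ u : ℕ, u ≤ X.length ∧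
      ((u = 0 ∧ ∀ x ∈ X, tm ((gB e0 l).1 - 2) (gB x.2 l).2 = true) ∨
        ∃ j, ∃ hj : j < X.length, u = j + 1 ∧ tm ((gB e0 l).1 - 2) (gB (X[j]).2 l).2 = false ∧
          ∀ x ∈ X, tm ((gB e0 l).1 - 2) (gB x.2 l).2 = false →
            (gB x.2 l).2 ≤ (gB (X[j]).2 l).2) := by
    intro l
    set J := (Finset.univ : Finset (Fin X.length)).filter
      fun j => tm ((gB e0 l).1 - 2) (gB (X[j.1]).2 l).2 = false with hJ
    by_cases hne : J.Nonempty
    · obtain ⟨j, hj, hmax⟩ := Finset.exists_max_image J (fun j => (gB (X[j.1]).2 l).2) hne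
      refine ⟨j.1 + 1, j.2, Or.inr ⟨j.1, j.2, rfl, ?_, ?_⟩⟩
      · exact (Finset.mem_filter.mp hj).2
      · intro x hx hx1
        obtain ⟨j', hj', rfl⟩ := List.getElem_of_mem hx
        exact hmax ⟨j', hj'⟩ (Finset.mem_filter.mpr ⟨Finset.mem_univ _, hx1⟩)
    · refine ⟨0, Nat.zero_le _, Or.inl ⟨rfl, ?_⟩⟩
      intro x hx
      by_contra hcon
      obtain ⟨j', hj', rfl⟩ := List.getElem_of_mem hx
      exact hne ⟨⟨j', hj'⟩, Finset.mem_filter.mpr ⟨Finset.mem_univ _, by simpa using hcon⟩⟩
  choose F hF1 hF2 using hch
  refine ⟨(List.range κ).map fun l => List.replicate (F l) (), ?_, ?_⟩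
  · rw [mem_tuples]
    refine ⟨by rw [List.length_map, List.length_range], ?_⟩
    intro u hu
    obtain ⟨l, _, rfl⟩ := List.mem_map.mp hu
    rw [rangeU_replicate, List.mem_map]
    exact ⟨F l, List.mem_range.mpr (by have := hF1 l; omega), rfl⟩
  · intro x hx
    obtain ⟨s1, s2⟩ := sameB_iff.mp (hX x hx)
    refine List.ext_getElem (by rw [length_patB, List.length_map]) ?_
    intro l hl hl'
    rw [getElem_patB, List.getElem_map]
    rw [length_patB] at hl
    have hgl : gB x.2 l = x.2[l] := by
      unfold gB
      rw [List.getD_eq_getElem?_getD, List.getElem?_eq_getElem hl, Option.getD_some]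
    have hs := s2 l hl
    have hσ : ((List.range κ).map fun l => List.replicate (F l) ()).getD l [] =
        List.replicate (F l) () := by
      rw [List.getD_eq_getElem?_getD, List.getElem?_map, List.getElem?_range (by omega)]
      rfl
    rw [hσ, ← hgl]
    unfold ansB
    by_cases h0 : (gB x.2 l).1 = 0
    · rw [if_pos h0, if_pos h0]
    rw [if_neg h0, if_neg h0]
    by_cases h1 : (gB x.2 l).1 = 1
    · rw [if_pos h1, if_pos h1]
    rw [if_neg h1, if_neg h1]
    rw [hs]
    rcases hF2 l with ⟨u0, hall⟩ | ⟨j, hj, uj, hfal, hmax⟩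
    · rw [u0]
      show true = _
      exact (hall x hx).symm
    · rw [uj]
      show decide ((gB (X.getD (List.replicate j ()).length ([], [])).2 l).2 < (gB x.2 l).2) = _
      have hXj : X.getD (List.replicate j ()).length ([], []) = X[j] := by
        rw [List.length_replicate, List.getD_eq_getElem?_getD, List.getElem?_eq_getElem hj,
          Option.getD_some]
      rw [hXj]
      by_cases ht : tm ((gB e0 l).1 - 2) (gB x.2 l).2 = true
      · rw [ht, decide_eq_true_eq]
        by_contra hcon
        have := htm _ _ _ (not_lt.mp hcon) ht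
        rw [hfal] at this
        exact Bool.noConfusion this
      · have hf : tm ((gB e0 l).1 - 2) (gB x.2 l).2 = false := by simpa using ht
        rw [hf, decide_eq_false_iff_not, not_lt]
        exact hmax x hx hf

theorem exclB_sound {X : List (List Bool × List (ℕ × ℕ))} {κ k : ℕ} (hk : X.length ≤ k)
    {V : List Bool → List Bool → Bool} {v : List Bool} (h : exclB κ k V X v = true)
    (hκ : ∀ x ∈ X, x.2.length ≤ κ) {tm : ℕ → ℕ → Bool}
    (htm : ∀ m t t', t ≤ t' → tm m t = true → tm m t' = true) :
    X.map (fun x => V x.1 (x.2.map (ansB tm))) ≠ v := by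
  unfold exclB at h
  rw [Bool.and_eq_true, List.all_eq_true, List.all_eq_true] at h
  obtain ⟨h1, h2⟩ := h
  have h0 : (X.headD ([], [])).2.length ≤ κ := by
    cases X with
    | nil => simp
    | cons x t => exact hκ x List.mem_cons_self
  obtain ⟨σ, hσ, hσ2⟩ := exists_cell hk h1 h0 htm
  intro he
  have h3 := h2 σ hσ
  rw [Bool.not_eq_true'] at h3
  have h4 : X.map (fun x => V x.1 (patB X σ x.2)) = v := by
    rw [← he]
    refine List.map_congr_left fun x hx => ?_
    rw [hσ2 x hx]
  rw [eqB_iff.mpr h4] at h3
  exact Bool.noConfusion h3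

/-! ### existence of an exclusion -/

/-- the possible lists of colours -/
def codesB (κ M : ℕ) : List (List ℕ) :=
  (List.range (κ + 1)).flatMap fun j => tuples j (List.range (M + 2))

theorem length_codesB (κ M : ℕ) : (codesB κ M).length ≤ (κ + 1) * (M + 2) ^ κ := by
  unfold codesB
  rw [List.length_flatMap]
  have h : ∀ x ∈ (List.range (κ + 1)).map (fun j => (tuples j (List.range (M + 2))).length),
      x ≤ (M + 2) ^ κ := by
    intro x hx
    obtain ⟨j, hj, rfl⟩ := List.mem_map.mp hx
    rw [List.mem_range] at hj
    rw [length_tuples, List.length_range]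
    exact Nat.pow_le_pow_right (by omega) (by omega)
  have := List.sum_le_card_nsmul _ _ h
  rwa [List.length_map, List.length_range, smul_eq_mul] at this

theorem sameB_of_map {e e' : List (ℕ × ℕ)} (h : e.map Prod.fst = e'.map Prod.fst) :
    sameB e e' = true := by
  have hl : e.length = e'.length := by
    have := congrArg List.length h
    rwa [List.length_map, List.length_map] at this
  refine sameB_iff.mpr ⟨hl, fun i hi => ?_⟩
  have h1 : (e.map Prod.fst)[i]'(by rw [List.length_map]; exact hi) =
      (e'.map Prod.fst)[i]'(by rw [List.length_map]; omega) := by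
    simp only [h]
  rw [List.getElem_map, List.getElem_map] at h1
  unfold gB
  rw [List.getD_eq_getElem?_getD, List.getElem?_eq_getElem hi, Option.getD_some,
    List.getD_eq_getElem?_getD, List.getElem?_eq_getElem (by omega), Option.getD_some]
  exact h1

/-- In a long list some element can be removed. -/
theorem exists_excl {κ k M : ℕ} (hk : (k + 1) ^ κ < 2 ^ k) {L : List ℕ} (hnd : L.Nodup)
    (hL : NB ((κ + 1) * (M + 2) ^ κ) (2 ^ k) ≤ L.length)
    (V : List Bool → List Bool → Bool) (E : List ℕ → List Bool × List (ℕ × ℕ))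
    (hE : ∀ A : List ℕ, A.length = 2 ^ k → (∀ a ∈ A, a ∈ L) →
      (E A).2.length ≤ κ ∧ ∀ c ∈ (E A).2, c.1 < M + 2) :
    ∃ A ∈ tuples k (tuples (2 ^ k) L), ∃ a ∈ L,
      exclB κ k V (A.map E) (A.map fun B => B.any fun b => decide (b = a)) = true := by
  classical
  obtain ⟨ab, hab1, hab2, hab3, c, hc⟩ := mono_struct ((κ + 1) * (M + 2) ^ κ) (2 ^ k) L.toFinset
    (fun A => (E A).2.map Prod.fst) (codesB κ M).toFinset
    ((List.toFinset_card_le _).trans (length_codesB κ M)) (by
      intro A hA1 hA2
      obtain ⟨h1, h2⟩ := hE A hA1 (fun a ha => List.mem_toFinset.mp (hA2 a ha))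
      rw [List.mem_toFinset]
      unfold codesB
      rw [List.mem_flatMap]
      refine ⟨(E A).2.length, List.mem_range.mpr (by omega), ?_⟩
      rw [mem_tuples]
      refine ⟨by rw [List.length_map], ?_⟩
      intro x hx
      obtain ⟨y, hy, rfl⟩ := List.mem_map.mp hx
      exact List.mem_range.mpr (h2 y hy)) (by
      rw [List.toFinset_card_of_nodup hnd]
      exact hL)
  -- the transversals
  set p : ℕ → List Bool := fun j => (List.range (2 ^ k)).map fun i => i.testBit j with hp
  have hpl : ∀ j, (p j).length = ab.length := by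
    intro j
    rw [hp, hab1]
    simp
  have habL : ∀ x ∈ ab, x.1 ∈ L ∧ x.2 ∈ L := by
    intro x hx
    have := hab2 x hx
    rwa [List.mem_toFinset, List.mem_toFinset] at this
  set A : List (List ℕ) := (List.range k).map fun j => sel ab (p j) with hA
  have hAmem : A ∈ tuples k (tuples (2 ^ k) L) := by
    rw [mem_tuples]
    refine ⟨by rw [hA, List.length_map, List.length_range], ?_⟩
    intro B hB
    rw [hA] at hB
    obtain ⟨j, _, rfl⟩ := List.mem_map.mp hB
    rw [mem_tuples]
    exact ⟨by rw [length_sel (hpl j), hab1], fun a ha => mem_of_mem_sel habL ha⟩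
  -- the impossible vector
  obtain ⟨i, hi, hvi⟩ := exists_vec (k := k) ((tuples κ (rangeU (List.replicate (k + 1) ()))).map
    fun σ => (A.map E).map fun x => V x.1 (patB (A.map E) σ x.2)) (by
      rw [List.length_map, length_tuples, rangeU_replicate, List.length_map, List.length_range]
      exact hk)
  have hi' : i < ab.length := by rw [hab1]; exact hi
  refine ⟨A, hAmem, (ab[i]).1, (habL _ (List.getElem_mem hi')).1, ?_⟩
  have hvec : (A.map fun B => B.any fun b => decide (b = (ab[i]).1)) = vecT k i := by
    rw [hA]
    unfold vecT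
    rw [List.map_map]
    refine List.map_congr_left fun j hj => ?_
    simp only [Function.comp_apply]
    rw [Bool.eq_iff_iff, List.any_eq_true]
    simp only [decide_eq_true_eq, exists_eq_right]
    rw [mem_sel hab3 (hpl j) hi']
    have : (p j)[i]'(by rw [hpl j]; exact hi') = i.testBit j := by
      simp only [hp, List.getElem_map, List.getElem_range]
    rw [this]
  rw [hvec]
  unfold exclB
  rw [Bool.and_eq_true, List.all_eq_true, List.all_eq_true]
  constructor
  · have hcol : ∀ B ∈ A, (E B).2.map Prod.fst = c := by
      intro B hB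
      rw [hA] at hB
      obtain ⟨j, _, rfl⟩ := List.mem_map.mp hB
      exact hc (p j) (by rw [hpl j, hab1])
    intro x hx
    obtain ⟨B, hB, rfl⟩ := List.mem_map.mp hx
    refine sameB_of_map ?_
    rw [hcol B hB]
    cases hAc : A with
    | nil => rw [hAc] at hB; simp at hB
    | cons B0 t =>
      rw [List.map_cons, List.headD_cons]
      exact (hcol B0 (by rw [hAc]; exact List.mem_cons_self)).symm
  · intro σ hσ
    rw [Bool.not_eq_true']
    by_contra hcon
    rw [Bool.not_eq_false, eqB_iff] at hcon
    exact hvi (List.mem_map.mpr ⟨σ, hσ, hcon⟩)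

end Pool.Agent.CKP
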